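import Pool.Agent.Helper34.EXR.Soft

set_option autoImplicit false

open Finset Matrix MvPolynomial

namespace Pool.Agent.Helper34.EXR

open Pool.Agent.Helper51.U2

theorem span_step (L : AddSubgroup (Fin 5 → ℤ)) {S : Set (Fin 5 → ℤ)}
    (T : Finset (Fin 5 → ℤ)) (hTS : ∀ v ∈ T, v ∈ S) (h : Crit L S) :
    (fun _ : T => (1 : ℂ)) ∈ Submodule.span ℂ
      {e : T → ℂ | ∃ t, InV t ∧ (∀ l ∈ L, mo t l = 1) ∧ e = fun v : T => mo t v} := by
  classical
  by_contra hn
  obtain ⟨F, hF1, hF⟩ := Submodule.exists_le_ker_of_notMem hn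
  let f : (Fin 5 → ℤ) →₀ ℂ := ∑ v : T, Finsupp.single (v : Fin 5 → ℤ) (F (Pi.single v 1))
  have hdec : ∀ e : T → ℂ, F e = ∑ v : T, F (Pi.single v 1) * e v := by
    intro e
    have he : e = ∑ v : T, e v • (Pi.single v (1 : ℂ) : T → ℂ) := by
      funext x
      simp [Finset.sum_apply, Pi.single_apply]
    conv_lhs => rw [he]
    rw [map_sum]
    refine Finset.sum_congr rfl fun v _ => ?_
    rw [map_smul, smul_eq_mul, mul_comm]
  have hat_f : ∀ t, hat f t = F (fun v : T => mo t v) := by
    intro t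
    rw [hdec]
    unfold hat
    simp only [f]
    rw [← Finsupp.sum_finsetSum_index (h := fun (v : Fin 5 → ℤ) (a : ℂ) => a * mo t v)
      (fun _ => by simp) (fun _ _ _ => by ring)]
    refine Finset.sum_congr rfl fun v _ => ?_
    rw [Finsupp.sum_single_index (by simp)]
  have hsupp : (f.support : Set (Fin 5 → ℤ)) ⊆ S := by
    intro v hv
    apply hTS
    by_contra hvT
    rw [Finset.mem_coe, Finsupp.mem_support_iff] at hv
    apply hv
    simp only [f, Finsupp.coe_finsetSum, Finset.sum_apply]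
    refine Finset.sum_eq_zero fun x _ => ?_
    rw [Finsupp.single_apply, if_neg]
    rintro rfl
    exact hvT x.2
  have h0 := h f hsupp fun t ht hl => by
    rw [hat_f]
    exact LinearMap.mem_ker.mp (hF (Submodule.subset_span ⟨t, ht, hl, rfl⟩))
  rw [hat_f] at h0
  apply hF1
  rw [← h0]
  congr 1
  funext v
  rw [mo_one]

theorem counted_of_crit (L : AddSubgroup (Fin 5 → ℤ)) {S : Set (Fin 5 → ℤ)}
    (T : Finset (Fin 5 → ℤ)) (hTS : ∀ v ∈ T, v ∈ S)
    (hcov : ∀ v ∈ S, ∃ u ∈ T, ∃ l ∈ L, v = u + l) (h : Crit L S) : Counted ℂ S T.card := by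
  classical
  have h1 := span_step L T hTS h
  obtain ⟨b, hbs, hspan, hli⟩ := exists_linearIndependent ℂ
    {e : T → ℂ | ∃ t, InV t ∧ (∀ l ∈ L, mo t l = 1) ∧ e = fun v : T => mo t v}
  rw [← hspan] at h1
  have hbfin : b.Finite := hli.setFinite
  have : Fintype b := hbfin.fintype
  have hcard : Fintype.card b ≤ T.card := by
    have := hli.fintype_card_le_finrank
    simpa using this
  obtain ⟨a, ha⟩ := (Finsupp.mem_span_iff_linearCombination _ _ _).mp h1
  have hch : ∀ x : b, ∃ t, InV t ∧ (∀ l ∈ L, mo t l = 1) ∧ x.1 = fun v : T => mo t v :=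
    fun x => hbs x.2
  choose t ht htl hte using hch
  have hch2 : ∀ x : b, ∃ φ ψ : RU →+* ℂ, ∀ i, t x i = φ (gen i) * ψ (gen i) :=
    fun x => exists_homs (ht x)
  choose φ ψ hφψ using hch2
  obtain ⟨φ0, -, -⟩ := exists_eval (K := ℂ) (x := 2) (y := 3) (by norm_num) (by norm_num) (by norm_num)
    (by norm_num) (by norm_num)
  let ι : b → Fin T.card := fun x => Fin.castLE hcard (Fintype.equivFin b x)
  have hι : Function.Injective ι := fun x y hxy =>
    (Fintype.equivFin b).injective (Fin.castLE_injective hcard hxy)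
  refine counted_of (fun i => ∑ x : b, if ι x = i then a x else 0)
    (Function.extend ι φ (fun _ => φ0)) (Function.extend ι ψ (fun _ => φ0)) fun v hv => ?_
  obtain ⟨u, hu, l, hl, rfl⟩ := hcov v hv
  have h2 : ∀ i, (∑ x : b, if ι x = i then a x else 0) * mo (fun j =>
      (Function.extend ι φ (fun _ => φ0) i) (gen j) *
        (Function.extend ι ψ (fun _ => φ0) i) (gen j)) (u + l) =
      ∑ x : b, if ι x = i then a x * mo (t x) (u + l) else 0 := by
    intro i
    rw [Finset.sum_mul]
    refine Finset.sum_congr rfl fun x _ => ?_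
    split_ifs with hx
    · subst hx
      rw [hι.extend_apply, hι.extend_apply]
      congr 2
      funext j
      rw [hφψ]
    · rw [zero_mul]
  rw [Finset.sum_congr rfl fun i _ => h2 i, Finset.sum_comm]
  have h3 : ∀ x : b, (∑ i, if ι x = i then a x * mo (t x) (u + l) else 0) =
      a x * x.1 ⟨u, hu⟩ := by
    intro x
    rw [Finset.sum_ite_eq, if_pos (Finset.mem_univ _), mo_add (ht x).1, htl x l hl, mul_one]
    rw [hte x]
  rw [Finset.sum_congr rfl fun x _ => h3 x]
  have h4 := congrFun ha ⟨u, hu⟩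
  rw [Finsupp.linearCombination_apply, Finsupp.sum_fintype _ _ (by simp)] at h4
  simpa [Finset.sum_apply] using h4

end Pool.Agent.Helper34.EXR
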