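import Pool.Agent.Helper51.U2.CB

/-!
Counting bases of 2-uniform matroids by Gram determinants: definitions.
-/

set_option autoImplicit false

open Finset Matrix MvPolynomial

namespace Pool.Agent.Helper34.EXR

open Pool.Agent.Helper51.U2

/-- the polynomial `αβ(1-α)(1-β)(α-β)` -/
noncomputable def discP : MvPolynomial (Fin 2) ℤ :=
  X 0 * X 1 * (1 - X 0) * (1 - X 1) * (X 0 - X 1)

/-- the ring `ℤ[α, β, 1/(αβ(1-α)(1-β)(α-β))]` of the partial field `𝕌₂` -/
abbrev RU : Type := Localization.Away discP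

/-- `α` -/
noncomputable def al : RU := algebraMap (MvPolynomial (Fin 2) ℤ) RU (X 0)

/-- `β` -/
noncomputable def be : RU := algebraMap (MvPolynomial (Fin 2) ℤ) RU (X 1)

/-- the generators `α-β, α, β, 1-α, 1-β` -/
noncomputable def gen : Fin 5 → RU := ![al - be, al, be, 1 - al, 1 - be]

/-- `p = ± (α-β)^(v 0) α^(v 1) β^(v 2) (1-α)^(v 3) (1-β)^(v 4)` (integer exponents) -/
def IsMon (v : Fin 5 → ℤ) (p : RU) : Prop :=
  ∃ ε : RU, (ε = 1 ∨ ε = -1) ∧
    p * ∏ i, gen i ^ (-v i).toNat = ε * ∏ i, gen i ^ (v i).toNat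

/-- every maximal minor of `A` is `0` or `±` a product with exponent vector in `S` -/
def HasExps {r n : ℕ} (A : Matrix (Fin r) (Fin n) RU) (S : Set (Fin 5 → ℤ)) : Prop :=
  ∀ B : Finset (Fin n), minor A B = 0 ∨ ∃ v ∈ S, IsMon v (minor A B)

/-- `det (φ(A) · diag(w) · ψ(A)ᵀ)` -/
noncomputable def gram {K : Type*} [CommRing K] {r n : ℕ} (A : Matrix (Fin r) (Fin n) RU)
    (w : Fin n → K) (φ ψ : RU →+* K) : K :=
  (A.map φ * Matrix.diagonal w * (A.map ψ)ᵀ).det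

open scoped Classical in
/-- one linear combination of `N` Gram determinants over `K` gives the weighted number of bases of
all matrices whose nonzero maximal minors have exponent vectors in `S` -/
def Counted (K : Type) [Field K] (S : Set (Fin 5 → ℤ)) (N : ℕ) : Prop :=
  ∃ (c : Fin N → K) (φ ψ : Fin N → (RU →+* K)), ∀ (r n : ℕ) (A : Matrix (Fin r) (Fin n) RU),
    HasExps A S → ∀ w : Fin n → K,
      ∑ B ∈ (Finset.univ.filter fun B : Finset (Fin n) => minor A B ≠ 0), ∏ e ∈ B, w e =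
        ∑ i, c i * gram A w (φ i) (ψ i)

/-- `φ(α)` and `φ(β)` are integers between `2` and `b` -/
def IntPt (b : ℕ) (φ : RU →+* ℚ) : Prop :=
  ∃ x y : ℕ, 2 ≤ x ∧ x ≤ b ∧ 2 ≤ y ∧ y ≤ b ∧ φ al = x ∧ φ be = y

open scoped Classical in
/-- one rational linear combination of `N` Gram determinants at points `α`, `β` which are integers
between `2` and `b` gives the weighted number of bases of all matrices whose nonzero maximal minors
have exponent vectors in `S` -/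
def CountedInt (S : Set (Fin 5 → ℤ)) (N b : ℕ) : Prop :=
  ∃ (c : Fin N → ℚ) (φ ψ : Fin N → (RU →+* ℚ)), (∀ i, IntPt b (φ i) ∧ IntPt b (ψ i)) ∧
    ∀ (r n : ℕ) (A : Matrix (Fin r) (Fin n) RU), HasExps A S → ∀ w : Fin n → ℚ,
      ∑ B ∈ (Finset.univ.filter fun B : Finset (Fin n) => minor A B ≠ 0), ∏ e ∈ B, w e =
        ∑ i, c i * gram A w (φ i) (ψ i)

/-- the same, but only the number of bases of `1 × 1` matrices is asked for -/
def CountedOne (S : Set (Fin 5 → ℤ)) (N : ℕ) : Prop :=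
  ∃ (c : Fin N → ℂ) (φ ψ : Fin N → (RU →+* ℂ)), ∀ A : Matrix (Fin 1) (Fin 1) RU,
    HasExps A S → A 0 0 ≠ 0 → 1 = ∑ i, c i * gram A (fun _ => 1) (φ i) (ψ i)

/-- the number of bases of one-row matrices with nonzero entries and exponent vectors in `S` is
determined by their Gram determinants over all commutative rings -/
def Determined (S : Set (Fin 5 → ℤ)) : Prop :=
  ∀ (n n' : ℕ) (A : Matrix (Fin 1) (Fin n) RU) (A' : Matrix (Fin 1) (Fin n') RU),
    HasExps A S → HasExps A' S → (∀ j, A 0 j ≠ 0) → (∀ j, A' 0 j ≠ 0) →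
    (∀ (K : Type) [CommRing K] (φ ψ : RU →+* K),
      gram A (fun _ => 1) φ ψ = gram A' (fun _ => 1) φ ψ) → n = n'

/-- the polynomial `Δ` -/
def Del {K : Type*} [CommRing K] (t : Fin 5 → K) : K :=
  (t 1 + t 2 - t 0) ^ 2 - (1 + t 1 - t 3) * (1 + t 2 - t 4) * (t 1 + t 2 - t 0)
    + t 2 * (1 + t 1 - t 3) ^ 2 + t 1 * (1 + t 2 - t 4) ^ 2 - 4 * t 1 * t 2

/-- the points of `Δ = 0` in the torus -/
def InV (t : Fin 5 → ℂ) : Prop := (∀ i, t i ≠ 0) ∧ Del t = 0

/-- `t^v` -/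
noncomputable def mo {K : Type} [Field K] (t : Fin 5 → K) (v : Fin 5 → ℤ) : K := ∏ i, t i ^ v i

/-- value of the Laurent polynomial with coefficients `f` at `t` -/
noncomputable def hat (f : (Fin 5 → ℤ) →₀ ℂ) (t : Fin 5 → ℂ) : ℂ := f.sum fun v a => a * mo t v

/-- the criterion: a Laurent polynomial with exponents in `S` vanishing at the points of `Δ = 0`
on which `L` is trivial vanishes at `1` -/
def Crit (L : AddSubgroup (Fin 5 → ℤ)) (S : Set (Fin 5 → ℤ)) : Prop :=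
  ∀ f : (Fin 5 → ℤ) →₀ ℂ, (f.support : Set (Fin 5 → ℤ)) ⊆ S →
    (∀ t, InV t → (∀ l ∈ L, mo t l = 1) → hat f t = 0) → hat f (fun _ => 1) = 0

/-- `l·v` -/
def dot (l v : Fin 5 → ℤ) : ℤ := ∑ i, l i * v i

/-- the exponent vectors `v` with `m ≤ l·v ≤ m + k` -/
def strip (l : Fin 5 → ℤ) (m : ℤ) (k : ℕ) : Set (Fin 5 → ℤ) := {v | m ≤ dot l v ∧ dot l v ≤ m + k}

/-- the nonzero solutions `u` of `Δ(u^(l 0), .., u^(l 4)) = 0` -/
def Zs (l : Fin 5 → ℤ) : Set ℂ := {u | u ≠ 0 ∧ Del (fun i => u ^ l i) = 0}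

/-- the variables over any coefficient ring -/
noncomputable def xvK (K : Type*) [CommRing K] (i : Fin 5) : AddMonoidAlgebra K (Fin 5 → ℤ) :=
  AddMonoidAlgebra.single (Pi.single i 1) 1

/-- `Δ` as a Laurent polynomial over any coefficient ring -/
noncomputable def DelK (K : Type*) [CommRing K] : AddMonoidAlgebra K (Fin 5 → ℤ) := Del (xvK K)

/-- the fifteen directions with two roots -/
def fifteen : Finset (Fin 5 → ℤ) :=
  {![0, 1, 0, 1, 0], ![1, 1, 0, 0, 0], ![1, 0, 0, 1, 0], ![0, 0, 1, 0, 1], ![1, 0, 1, 0, 0],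
   ![1, 0, 0, 0, 1], ![0, 1, 1, 0, 0], ![0, 0, 0, 1, 1], ![1, 1, 1, 1, 0], ![1, 1, 1, 0, 1],
   ![1, 1, 0, 1, 1], ![1, 0, 1, 1, 1], ![0, 0, -1, 1, 0], ![0, -1, 0, 0, 1], ![2, 1, 1, 1, 1]}

end Pool.Agent.Helper34.EXR
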