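import Pool.Agent.Helper34.EXR.Laurent
import Pool.Agent.Helper34.EXR.Back

set_option autoImplicit false

open Finset MvPolynomial

namespace Pool.Agent.Helper34.EXR

theorem dot_add (l v w : Fin 5 → ℤ) : dot l (v + w) = dot l v + dot l w := by
  unfold dot
  rw [← Finset.sum_add_distrib]
  exact Finset.sum_congr rfl fun i _ => by rw [Pi.add_apply, mul_add]

theorem dot_smul (l v : Fin 5 → ℤ) (a : ℤ) : dot l (a • v) = a * dot l v := by
  unfold dot
  rw [Finset.mul_sum]
  exact Finset.sum_congr rfl fun i _ => by rw [Pi.smul_apply, smul_eq_mul]; ring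

/-- the kernel of `l` -/
def kerL (l : Fin 5 → ℤ) : AddSubgroup (Fin 5 → ℤ) where
  carrier := {v | dot l v = 0}
  zero_mem' := by simp [dot]
  add_mem' := fun {a b} ha hb => by
    show dot l (a + b) = 0
    rw [dot_add]
    simp only [Set.mem_ofPred_eq] at ha hb
    rw [ha, hb, add_zero]
  neg_mem' := fun {a} ha => by
    show dot l (-a) = 0
    simp only [Set.mem_ofPred_eq] at ha
    have := dot_smul l a (-1)
    rw [neg_one_smul, ha, mul_zero] at this
    exact this

theorem mem_kerL {l v : Fin 5 → ℤ} : v ∈ kerL l ↔ dot l v = 0 := Iff.rfl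

theorem mo_curve {u : ℂ} (hu : u ≠ 0) (l v : Fin 5 → ℤ) :
    mo (fun i => u ^ l i) v = u ^ dot l v := by
  unfold mo dot
  rw [Fin.prod_univ_five, Fin.sum_univ_five]
  simp only [zpow_add₀ hu, zpow_mul]

theorem mo_zsmul {t : Fin 5 → ℂ} (a : ℤ) (v : Fin 5 → ℤ) :
    mo t (a • v) = mo t v ^ a := by
  unfold mo
  rw [Fin.prod_univ_five, Fin.prod_univ_five]
  simp only [Pi.smul_apply, smul_eq_mul, mul_zpow, ← zpow_mul]
  simp only [mul_comm a]

/-- restriction of a Laurent polynomial to a one-parameter subgroup, shifted -/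
noncomputable def gpol (f : (Fin 5 → ℤ) →₀ ℂ) (l : Fin 5 → ℤ) (K : ℤ) : Polynomial ℂ :=
  ∑ v ∈ f.support, Polynomial.monomial (dot l v + K).toNat (f v)

theorem eval_gpol (f : (Fin 5 → ℤ) →₀ ℂ) (l : Fin 5 → ℤ) (K : ℤ)
    (hK : ∀ v ∈ f.support, 0 ≤ dot l v + K) {u : ℂ} (hu : u ≠ 0) :
    (gpol f l K).eval u = u ^ K * hat f (fun i => u ^ l i) := by
  unfold gpol hat
  rw [Polynomial.eval_finsetSum, Finsupp.sum, Finset.mul_sum]
  refine Finset.sum_congr rfl fun v hv => ?_
  rw [Polynomial.eval_monomial, mo_curve hu]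
  have h1 : u ^ (dot l v + K).toNat = u ^ (dot l v + K) := by
    rw [← zpow_natCast, Int.toNat_of_nonneg (hK v hv)]
  rw [h1, zpow_add₀ hu]
  ring

theorem Zs_finite (l : Fin 5 → ℤ) : (Zs l).Finite := by
  classical
  set f := DelL.coeff with hf
  obtain ⟨K, hK⟩ : ∃ K : ℤ, ∀ v ∈ f.support, 0 ≤ dot l v + K := by
    refine ⟨∑ v ∈ f.support, |dot l v|, fun v hv => ?_⟩
    have h1 : |dot l v| ≤ ∑ v ∈ f.support, |dot l v| :=
      Finset.single_le_sum (f := fun v => |dot l v|) (fun _ _ => abs_nonneg _) hv
    have h2 := neg_abs_le (dot l v)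
    omega
  have hne : gpol f l K ≠ 0 := by
    intro h0
    have h1 := eval_gpol f l K hK (u := 1) one_ne_zero
    rw [h0, Polynomial.eval_zero, one_zpow, one_mul] at h1
    have h2 : hat f (fun i => (1 : ℂ) ^ l i) = Del (fun _ => (1 : ℂ)) := by
      have h3 : (fun i => (1 : ℂ) ^ l i) = fun _ => 1 := by funext i; simp
      rw [h3, ← evL_DelL (fun _ => 1) (fun _ => one_ne_zero), evL_apply]
    rw [h2, Del_one] at h1
    norm_num at h1
  refine Set.Finite.subset (gpol f l K).roots.toFinset.finite_toSet fun u hu => ?_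
  obtain ⟨hu0, hu1⟩ := hu
  rw [Finset.mem_coe, Multiset.mem_toFinset, Polynomial.mem_roots hne]
  show (gpol f l K).eval u = 0
  rw [eval_gpol f l K hK hu0]
  have h2 : hat f (fun i => u ^ l i) = Del (fun i => u ^ l i) := by
    rw [← evL_DelL _ (fun i => zpow_ne_zero _ hu0), evL_apply]
  rw [h2, hu1, mul_zero]

theorem one_notMem_Zs (l : Fin 5 → ℤ) : (1 : ℂ) ∉ Zs l := by
  rintro ⟨-, h⟩
  have h3 : (fun i => (1 : ℂ) ^ l i) = fun _ => 1 := by funext i; simp
  rw [h3, Del_one] at h
  norm_num at h

theorem crit_of_lt {l : Fin 5 → ℤ} {m : ℤ} {k : ℕ} (hk : k < (Zs l).ncard) :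
    Crit (kerL l) (strip l m k) := by
  classical
  intro f hf hvan
  have hK : ∀ v ∈ f.support, 0 ≤ dot l v + (-m) := fun v hv => by
    have := (hf hv).1
    omega
  have hroot : ∀ u ∈ Zs l, (gpol f l (-m)).eval u = 0 := by
    intro u hu
    obtain ⟨hu0, hu1⟩ := hu
    rw [eval_gpol f l (-m) hK hu0]
    rw [hvan (fun i => u ^ l i) ⟨fun i => zpow_ne_zero _ hu0, hu1⟩ (fun v hv => by
      rw [mo_curve hu0, mem_kerL.mp hv, zpow_zero]), mul_zero]
  have hdeg : (gpol f l (-m)).natDegree ≤ k := by
    unfold gpol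
    refine Polynomial.natDegree_sum_le_of_forall_le _ _ fun v hv => ?_
    refine (Polynomial.natDegree_monomial_le _).trans ?_
    have := (hf hv).2
    omega
  have hzero : gpol f l (-m) = 0 := by
    by_contra hne
    have hsub : (Zs l) ⊆ ((gpol f l (-m)).roots.toFinset : Set ℂ) := fun u hu => by
      rw [Finset.mem_coe, Multiset.mem_toFinset, Polynomial.mem_roots hne]
      exact hroot u hu
    have h1 := Set.ncard_le_ncard hsub (Finset.finite_toSet _)
    rw [Set.ncard_coe_finset] at h1
    have h2 := Multiset.toFinset_card_le (gpol f l (-m)).roots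
    have h3 := Polynomial.card_roots' (gpol f l (-m))
    omega
  have h1 := eval_gpol f l (-m) hK (u := 1) one_ne_zero
  rw [hzero, Polynomial.eval_zero, one_zpow, one_mul] at h1
  have h3 : (fun i => (1 : ℂ) ^ l i) = fun _ => 1 := by funext i; simp
  rw [h3] at h1
  exact h1.symm

theorem lt_of_crit {l w : Fin 5 → ℤ} (hw : dot l w = 1) {m : ℤ} {k : ℕ}
    (h : Crit (kerL l) (strip l m k)) : k < (Zs l).ncard := by
  classical
  by_contra hk
  push Not at hk
  have hfin := Zs_finite l
  set Z := hfin.toFinset with hZ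
  have hZc : Z.card ≤ k := by
    rw [← Set.ncard_eq_toFinset_card _ hfin]
    exact hk
  set g : Polynomial ℂ := ∏ z ∈ Z, (Polynomial.X - Polynomial.C z) with hg
  have hgdeg : g.natDegree < k + 1 := by
    rw [hg, Polynomial.natDegree_prod_of_monic _ _ (fun z _ => Polynomial.monic_X_sub_C z)]
    simp only [Polynomial.natDegree_X_sub_C, Finset.sum_const, smul_eq_mul, mul_one]
    omega
  let f : (Fin 5 → ℤ) →₀ ℂ := ∑ j ∈ Finset.range (k + 1), Finsupp.single ((m + j) • w) (g.coeff j)
  have hat_f : ∀ t : Fin 5 → ℂ, hat f t =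
      ∑ j ∈ Finset.range (k + 1), g.coeff j * mo t w ^ (m + j) := by
    intro t
    unfold hat
    simp only [f]
    rw [← Finsupp.sum_finsetSum_index (h := fun (v : Fin 5 → ℤ) (a : ℂ) => a * mo t v)
      (fun _ => by simp) (fun _ _ _ => by ring)]
    refine Finset.sum_congr rfl fun j _ => ?_
    rw [Finsupp.sum_single_index (by simp), mo_zsmul]
  have hsupp : (f.support : Set (Fin 5 → ℤ)) ⊆ strip l m k := by
    intro v hv
    by_contra hvS
    rw [Finset.mem_coe, Finsupp.mem_support_iff] at hv
    apply hv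
    simp only [f, Finsupp.coe_finsetSum, Finset.sum_apply]
    refine Finset.sum_eq_zero fun j hj => ?_
    rw [Finsupp.single_apply, if_neg]
    rintro rfl
    apply hvS
    have hj' := Finset.mem_range.mp hj
    have hd : dot l ((m + (j : ℤ)) • w) = m + j := by rw [dot_smul, hw, mul_one]
    constructor
    · rw [hd]; omega
    · rw [hd]; omega
  have heval : ∀ u : ℂ, u ≠ 0 → ∑ j ∈ Finset.range (k + 1), g.coeff j * u ^ (m + (j : ℤ)) =
      u ^ m * g.eval u := by
    intro u hu
    rw [Polynomial.eval_eq_sum_range' hgdeg, Finset.mul_sum]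
    refine Finset.sum_congr rfl fun j _ => ?_
    rw [zpow_add₀ hu, zpow_natCast]
    ring
  have h0 := h f hsupp fun t ht hl => by
    have hu : mo t w ≠ 0 := mo_ne_zero ht.1 w
    rw [hat_f, heval _ hu]
    have hti : ∀ i, t i = mo t w ^ l i := by
      intro i
      have h1 := hl (Pi.single i 1 - l i • w) (by
        rw [mem_kerL, sub_eq_add_neg, dot_add, ← neg_smul, dot_smul, hw]
        have : dot l (Pi.single i 1) = l i := by
          unfold dot
          rw [Finset.sum_eq_single i]
          · simp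
          · intro j _ hj
            simp [Pi.single_eq_of_ne hj]
          · intro hh
            exact absurd (Finset.mem_univ _) hh
        rw [this]
        ring)
      have h2 : mo t (Pi.single i 1) = mo t (Pi.single i 1 - l i • w) * mo t (l i • w) := by
        rw [← mo_add ht.1, sub_add_cancel]
      rw [h1, one_mul, mo_zsmul] at h2
      rw [← h2]
      exact (evL_xv t ht.1 i).symm.trans (by
        rw [evL_apply]
        unfold hat xv
        rw [AddMonoidAlgebra.coeff_single, Finsupp.sum_single_index (by simp), one_mul])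
    have hZu : mo t w ∈ Z := by
      rw [hZ, Set.Finite.mem_toFinset]
      refine ⟨hu, ?_⟩
      have : (fun i => mo t w ^ l i) = t := by funext i; exact (hti i).symm
      rw [this]
      exact ht.2
    have : g.eval (mo t w) = 0 := by
      rw [hg, Polynomial.eval_prod]
      exact Finset.prod_eq_zero hZu (by simp)
    rw [this, mul_zero]
  rw [hat_f, mo_one, heval 1 one_ne_zero, one_zpow, one_mul, hg, Polynomial.eval_prod,
    Finset.prod_eq_zero_iff] at h0
  obtain ⟨z, hz, hz1⟩ := h0
  have hz2 : z = 1 := by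
    simp only [Polynomial.eval_sub, Polynomial.eval_X, Polynomial.eval_C] at hz1
    linear_combination -hz1
  rw [hz2, hZ, Set.Finite.mem_toFinset] at hz
  exact one_notMem_Zs l hz

/-- exact threshold in every primitive direction -/
theorem strip_counted {l w : Fin 5 → ℤ} (hw : dot l w = 1) {m : ℤ} {k : ℕ}
    (hk : k < (Zs l).ncard) : Counted ℂ (strip l m k) (k + 1) := by
  classical
  have hinj : Function.Injective (fun j : ℕ => (m + (j : ℤ)) • w) := by
    intro a b hab
    have h1 := congrArg (dot l) hab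
    simp only [dot_smul, hw] at h1
    omega
  have hcard : ((Finset.range (k + 1)).image fun j : ℕ => (m + (j : ℤ)) • w).card = k + 1 := by
    rw [Finset.card_image_of_injective _ hinj, Finset.card_range]
  have h := counted_of_crit (kerL l) (S := strip l m k)
    ((Finset.range (k + 1)).image fun j : ℕ => (m + (j : ℤ)) • w) (by
      intro v hv
      obtain ⟨j, hj, rfl⟩ := Finset.mem_image.mp hv
      have hj' := Finset.mem_range.mp hj
      have hd : dot l ((m + (j : ℤ)) • w) = m + j := by rw [dot_smul, hw, mul_one]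
      constructor
      · rw [hd]; omega
      · rw [hd]; omega) (by
      intro v hv
      refine ⟨dot l v • w, ?_, v - dot l v • w, ?_, by abel⟩
      · refine Finset.mem_image.mpr ⟨(dot l v - m).toNat, ?_, ?_⟩
        · rw [Finset.mem_range]
          have h1 := hv.1
          have h2 := hv.2
          omega
        · have h1 := hv.1
          have h3 : m + (((dot l v - m).toNat : ℕ) : ℤ) = dot l v := by omega
          rw [h3]
      · rw [mem_kerL, sub_eq_add_neg, dot_add, ← neg_smul, dot_smul, hw]
        ring) (crit_of_lt hk)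
  rwa [hcard] at h

theorem strip_not_counted {l w : Fin 5 → ℤ} (hw : dot l w = 1) {m : ℤ} {k : ℕ}
    (hk : (Zs l).ncard ≤ k) (N : ℕ) : ¬ CountedOne (strip l m k) N := by
  intro h
  have h1 := crit_of_countedOne (kerL l) (fun v hv u hu => by
    have h2 : dot l (v + u) = dot l v := by rw [dot_add, mem_kerL.mp hu, add_zero]
    exact ⟨by rw [h2]; exact hv.1, by rw [h2]; exact hv.2⟩) h
  exact absurd (lt_of_crit hw h1) (by omega)

end Pool.Agent.Helper34.EXR
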