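import Pool.Agent.Helper34.EXR.Defs

set_option autoImplicit false

open Finset Matrix MvPolynomial

namespace Pool.Agent.Helper34.EXR

open Pool.Agent.Helper51.U2

variable {K : Type} [Field K]

theorem mo_zero (t : Fin 5 → K) : mo t 0 = 1 := by simp [mo]

theorem mo_add {t : Fin 5 → K} (ht : ∀ i, t i ≠ 0) (v w : Fin 5 → ℤ) :
    mo t (v + w) = mo t v * mo t w := by
  unfold mo
  rw [← Finset.prod_mul_distrib]
  exact Finset.prod_congr rfl fun i _ => by rw [Pi.add_apply, zpow_add₀ (ht i)]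

theorem mo_ne_zero {t : Fin 5 → K} (ht : ∀ i, t i ≠ 0) (v : Fin 5 → ℤ) : mo t v ≠ 0 :=
  Finset.prod_ne_zero_iff.mpr fun i _ => zpow_ne_zero _ (ht i)

theorem mo_one (v : Fin 5 → ℤ) : mo (fun _ => (1 : K)) v = 1 := by simp [mo]

theorem gen_isUnit (i : Fin 5) : IsUnit (gen i) := by
  have h : IsUnit (algebraMap (MvPolynomial (Fin 2) ℤ) RU discP) :=
    IsLocalization.Away.algebraMap_isUnit discP
  have h2 : algebraMap (MvPolynomial (Fin 2) ℤ) RU discP
      = al * be * (1 - al) * (1 - be) * (al - be) := by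
    simp only [discP, map_mul, map_sub, map_one]
    rfl
  rw [h2] at h
  have h5 := isUnit_of_mul_isUnit_right h
  have h' := isUnit_of_mul_isUnit_left h
  have h4 := isUnit_of_mul_isUnit_right h'
  have h'' := isUnit_of_mul_isUnit_left h'
  have h3 := isUnit_of_mul_isUnit_right h''
  have h''' := isUnit_of_mul_isUnit_left h''
  have h2' := isUnit_of_mul_isUnit_right h'''
  have h1 := isUnit_of_mul_isUnit_left h'''
  fin_cases i
  · exact h5
  · exact h1
  · exact h2'
  · exact h3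
  · exact h4

theorem phi_gen_ne (φ : RU →+* K) (i : Fin 5) : φ (gen i) ≠ 0 :=
  ((gen_isUnit i).map φ).ne_zero

theorem zpow_toNat {x : K} (hx : x ≠ 0) (k : ℤ) : x ^ k * x ^ (-k).toNat = x ^ k.toNat := by
  rcases le_total 0 k with h | h
  · lift k to ℕ using h
    simp
  · obtain ⟨m, rfl⟩ : ∃ m : ℕ, k = -(m : ℤ) := ⟨(-k).toNat, by omega⟩
    simp [hx]

theorem phi_mon {v : Fin 5 → ℤ} {p : RU} (h : IsMon v p) (φ ψ : RU →+* K) :
    φ p * ψ p = mo (fun i => φ (gen i) * ψ (gen i)) v := by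
  obtain ⟨ε, hε, h⟩ := h
  have key : ∀ χ : RU →+* K, χ p = χ ε * mo (fun i => χ (gen i)) v := by
    intro χ
    have h1 := congrArg χ h
    simp only [map_mul, map_prod, map_pow] at h1
    have h2 : (∏ i, χ (gen i) ^ (-v i).toNat) ≠ 0 :=
      Finset.prod_ne_zero_iff.mpr fun i _ => pow_ne_zero _ (phi_gen_ne χ i)
    apply mul_right_cancel₀ h2
    rw [h1, mul_assoc]
    congr 1
    unfold mo
    rw [← Finset.prod_mul_distrib]
    exact Finset.prod_congr rfl fun i _ => (zpow_toNat (phi_gen_ne χ i) (v i)).symm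
  rw [key φ, key ψ]
  have h3 : φ ε * ψ ε = 1 := by rcases hε with rfl | rfl <;> simp
  have h4 : mo (fun i => φ (gen i) * ψ (gen i)) v
      = mo (fun i => φ (gen i)) v * mo (fun i => ψ (gen i)) v := by
    unfold mo
    rw [← Finset.prod_mul_distrib]
    exact Finset.prod_congr rfl fun i _ => by rw [mul_zpow]
  rw [h4]
  linear_combination (mo (fun i => φ (gen i)) v * mo (fun i => ψ (gen i)) v) * h3

/-- evaluation at `α = x`, `β = y` -/
theorem exists_eval {x y : K} (hx : x ≠ 0) (hy : y ≠ 0) (hx1 : 1 - x ≠ 0) (hy1 : 1 - y ≠ 0)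
    (hxy : x - y ≠ 0) : ∃ φ : RU →+* K, φ al = x ∧ φ be = y := by
  have hu : IsUnit ((eval₂Hom (Int.castRingHom K) ![x, y]) discP) := by
    rw [isUnit_iff_ne_zero]
    simp only [discP, map_mul, map_sub, map_one, eval₂Hom_X']
    simp only [Matrix.cons_val_zero, Matrix.cons_val_one]
    exact mul_ne_zero (mul_ne_zero (mul_ne_zero (mul_ne_zero hx hy) hx1) hy1) hxy
  refine ⟨IsLocalization.Away.lift discP hu, ?_, ?_⟩
  · unfold al
    rw [IsLocalization.Away.lift_eq]
    simp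
  · unfold be
    rw [IsLocalization.Away.lift_eq]
    simp

theorem inV_of_homs (φ ψ : RU →+* ℂ) : InV (fun i => φ (gen i) * ψ (gen i)) := by
  refine ⟨fun i => mul_ne_zero (phi_gen_ne φ i) (phi_gen_ne ψ i), ?_⟩
  have g0 : gen 0 = al - be := rfl
  have g1 : gen 1 = al := rfl
  have g2 : gen 2 = be := rfl
  have g3 : gen 3 = 1 - al := rfl
  have g4 : gen 4 = 1 - be := rfl
  simp only [Del, g0, g1, g2, g3, g4, map_sub, map_one]
  ring

/-- two complex numbers with given sum and product -/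
theorem exists_roots (s p : ℂ) : ∃ a a' : ℂ, a + a' = s ∧ a * a' = p := by
  obtain ⟨d, hd⟩ := IsAlgClosed.exists_pow_nat_eq (s ^ 2 - 4 * p) (n := 2) (by norm_num)
  refine ⟨(s + d) / 2, (s - d) / 2, by ring, ?_⟩
  have : (s + d) / 2 * ((s - d) / 2) = (s ^ 2 - d ^ 2) / 4 := by ring
  rw [this, hd]
  ring

theorem exists_homs {t : Fin 5 → ℂ} (ht : InV t) :
    ∃ φ ψ : RU →+* ℂ, ∀ i, t i = φ (gen i) * ψ (gen i) := by
  obtain ⟨hne, hD⟩ := ht
  obtain ⟨a, a', ha, haa⟩ := exists_roots (1 + t 1 - t 3) (t 1)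
  obtain ⟨b0, b0', hb, hbb⟩ := exists_roots (1 + t 2 - t 4) (t 2)
  -- choose the order of the two roots
  have hprod : ((t 1 + t 2 - t 0) - (a * b0' + a' * b0)) *
      ((t 1 + t 2 - t 0) - (a * b0 + a' * b0')) = 0 := by
    have h := hD
    unfold Del at h
    rw [← ha, ← hb] at h
    linear_combination h + (a + a') ^ 2 * hbb + (b0 + b0') ^ 2 * haa - 4 * t 2 * haa
      - 4 * a * a' * hbb
  obtain ⟨b, b', hb1, hb2, hm⟩ : ∃ b b' : ℂ, b + b' = 1 + t 2 - t 4 ∧ b * b' = t 2 ∧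
      t 1 + t 2 - t 0 = a * b' + a' * b := by
    rcases mul_eq_zero.mp hprod with h | h
    · exact ⟨b0, b0', hb, hbb, by linear_combination h⟩
    · exact ⟨b0', b0, by linear_combination hb, by linear_combination hbb,
        by linear_combination h⟩
  have e1 : t 1 = a * a' := haa.symm
  have e2 : t 2 = b * b' := hb2.symm
  have e3 : t 3 = (1 - a) * (1 - a') := by linear_combination ha - haa
  have e4 : t 4 = (1 - b) * (1 - b') := by linear_combination hb1 - hb2
  have e0 : t 0 = (a - b) * (a' - b') := by linear_combination -haa - hb2 - hm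
  have n1 := hne 1
  have n2 := hne 2
  have n3 := hne 3
  have n4 := hne 4
  have n0 := hne 0
  rw [e1] at n1
  rw [e2] at n2
  rw [e3] at n3
  rw [e4] at n4
  rw [e0] at n0
  obtain ⟨φ, f1, f2⟩ := exists_eval (left_ne_zero_of_mul n1) (left_ne_zero_of_mul n2)
    (left_ne_zero_of_mul n3) (left_ne_zero_of_mul n4) (left_ne_zero_of_mul n0)
  obtain ⟨ψ, g1, g2⟩ := exists_eval (right_ne_zero_of_mul n1) (right_ne_zero_of_mul n2)
    (right_ne_zero_of_mul n3) (right_ne_zero_of_mul n4) (right_ne_zero_of_mul n0)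
  refine ⟨φ, ψ, fun i => ?_⟩
  fin_cases i
  · show t 0 = φ (al - be) * ψ (al - be)
    rw [map_sub, map_sub, f1, f2, g1, g2, e0]
  · show t 1 = φ al * ψ al
    rw [f1, g1, e1]
  · show t 2 = φ be * ψ be
    rw [f2, g2, e2]
  · show t 3 = φ (1 - al) * ψ (1 - al)
    rw [map_sub, map_sub, map_one, map_one, f1, g1, e3]
  · show t 4 = φ (1 - be) * ψ (1 - be)
    rw [map_sub, map_sub, map_one, map_one, f2, g2, e4]

/-- every exponent vector occurs -/
theorem exists_isMon (v : Fin 5 → ℤ) : ∃ p : RU, IsMon v p := by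
  refine ⟨((∏ i, (gen_isUnit i).unit ^ v i : RUˣ) : RU), 1, Or.inl rfl, ?_⟩
  rw [Units.coe_prod, ← Finset.prod_mul_distrib, one_mul]
  refine Finset.prod_congr rfl fun i _ => ?_
  obtain ⟨u, hu⟩ := gen_isUnit i
  have h1 : (gen_isUnit i).unit = u := by ext; simp [hu]
  rw [h1, ← hu]
  rcases le_total 0 (v i) with h | h
  · obtain ⟨k, hk⟩ : ∃ k : ℕ, v i = k := ⟨(v i).toNat, by omega⟩
    rw [hk]
    simp
  · obtain ⟨k, hk⟩ : ∃ k : ℕ, v i = -(k : ℤ) := ⟨(-v i).toNat, by omega⟩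
    rw [hk]
    simp only [neg_neg, Int.toNat_natCast]
    rw [← Units.val_pow_eq_pow_val, ← Units.val_mul]
    have : u ^ (-(k : ℤ)) * u ^ k = 1 := by simp
    rw [this]
    simp

theorem isMon_ne_zero {v : Fin 5 → ℤ} {p : RU} (h : IsMon v p) (φ : RU →+* ℂ) : p ≠ 0 := by
  intro h0
  have h1 := phi_mon h φ φ
  rw [h0, map_zero, mul_zero] at h1
  exact mo_ne_zero (fun i => mul_ne_zero (phi_gen_ne φ i) (phi_gen_ne φ i)) v h1.symm

end Pool.Agent.Helper34.EXR
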