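import Pool.Agent.Helper34.EXR.Rows

set_option autoImplicit false

open Finset MvPolynomial

namespace Pool.Agent.Helper34.EXR

theorem lam_mul (lam : ℂ →ₗ[ℚ] ℚ) (h : LP) (d : AddMonoidAlgebra ℤ (Fin 5 → ℤ)) (v : Fin 5 → ℤ) :
    ((AddMonoidAlgebra.mapRingHom _ (Int.castRingHom ℚ) d) *
      (⟨h.coeff.mapRange lam (map_zero _)⟩ : AddMonoidAlgebra ℚ (Fin 5 → ℤ))).coeff v =
    lam (((AddMonoidAlgebra.mapRingHom _ (Int.castRingHom ℂ) d) * h).coeff v) := by
  induction d using AddMonoidAlgebra.induction_linear with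
  | zero => simp
  | add a b ha hb =>
    rw [map_add, map_add, add_mul, add_mul, AddMonoidAlgebra.coeff_add, AddMonoidAlgebra.coeff_add,
      Finsupp.add_apply, Finsupp.add_apply, map_add, ha, hb]
  | single a b =>
    rw [AddMonoidAlgebra.mapRingHom_single, AddMonoidAlgebra.mapRingHom_single]
    rw [AddMonoidAlgebra.coeff_single_mul_eq_mul_coeff (v - a)
      (fun x _ => ⟨fun hx => by rw [← hx]; abel, fun hx => by rw [hx]; abel⟩)]
    rw [AddMonoidAlgebra.coeff_single_mul_eq_mul_coeff (v - a)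
      (fun x _ => ⟨fun hx => by rw [← hx]; abel, fun hx => by rw [hx]; abel⟩)]
    show ((b : ℤ) : ℚ) * lam (h.coeff (v - a)) = lam (((b : ℤ) : ℂ) * h.coeff (v - a))
    rw [← zsmul_eq_mul, ← zsmul_eq_mul, map_zsmul]

theorem complex_of_int {S : Set (Fin 5 → ℤ)}
    (H : ∀ h : AddMonoidAlgebra ℤ (Fin 5 → ℤ),
      ((DelK ℤ * h).coeff.support : Set (Fin 5 → ℤ)) ⊆ S → h.coeff.sum (fun _ a => a) = 0)
    (h : LP) (hs : ((DelL * h).coeff.support : Set (Fin 5 → ℤ)) ⊆ S) :
    h.coeff.sum (fun _ a => a) = 0 := by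
  classical
  by_contra hne
  obtain ⟨lam, hlam⟩ : ∃ lam : ℂ →ₗ[ℚ] ℚ, lam (h.coeff.sum (fun _ a => a)) ≠ 0 := by
    by_contra hcon
    push Not at hcon
    exact hne ((Module.forall_dual_apply_eq_zero_iff ℚ _).mp hcon)
  set g := h.coeff.mapRange lam (map_zero _) with hg
  obtain ⟨N, hN0, hN⟩ : ∃ N : ℕ, N ≠ 0 ∧ ∀ v, (((N : ℚ) * g v).num : ℚ) = N * g v := by
    refine ⟨∏ v ∈ g.support, (g v).den, Finset.prod_ne_zero_iff.mpr fun v _ => (g v).den_nz,
      fun v => ?_⟩
    by_cases hv : v ∈ g.support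
    · obtain ⟨c, hc⟩ : (g v).den ∣ ∏ v ∈ g.support, (g v).den := Finset.dvd_prod_of_mem _ hv
      have h1 : ((∏ v ∈ g.support, (g v).den : ℕ) : ℚ) * g v = ((c * (g v).num : ℤ) : ℚ) := by
        rw [hc]
        push_cast
        have h4 : ((g v).den : ℚ) * g v = (g v).num := by
          rw [mul_comm]
          exact Rat.mul_den_eq_num (g v)
        linear_combination (c : ℚ) * h4
      rw [h1, Rat.num_intCast]
    · rw [Finsupp.notMem_support_iff.mp hv]
      simp
  let k : AddMonoidAlgebra ℤ (Fin 5 → ℤ) :=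
    ⟨g.mapRange (fun q => ((N : ℚ) * q).num) (by simp)⟩
  have hk : AddMonoidAlgebra.mapRingHom _ (Int.castRingHom ℚ) k =
      (N : ℚ) • (⟨g⟩ : AddMonoidAlgebra ℚ (Fin 5 → ℤ)) := by
    ext v
    have e1 : (AddMonoidAlgebra.mapRingHom _ (Int.castRingHom ℚ) k).coeff v =
        ((k.coeff v : ℤ) : ℚ) := by simp
    rw [e1]
    show (((N : ℚ) * g v).num : ℚ) = _
    rw [hN v]
    simp
  have hcoef : ∀ v, (((DelK ℤ * k).coeff v : ℤ) : ℚ) = N * lam ((DelL * h).coeff v) := by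
    intro v
    have e1 : (((DelK ℤ * k).coeff v : ℤ) : ℚ) =
        (AddMonoidAlgebra.mapRingHom _ (Int.castRingHom ℚ) (DelK ℤ * k)).coeff v := by
      rw [AddMonoidAlgebra.coeff_mapRingHom]
      rfl
    rw [e1, map_mul, hk, mul_smul_comm]
    have e2 := lam_mul lam h (DelK ℤ) v
    have e3 : AddMonoidAlgebra.mapRingHom _ (Int.castRingHom ℂ) (DelK ℤ) = DelL := DelK_map _
    rw [e3] at e2
    rw [← e2]
    simp [hg]
  have hk1 := H k (by
    intro v hv
    apply hs
    rw [Finset.mem_coe, Finsupp.mem_support_iff] at hv ⊢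
    intro h0
    apply hv
    have := hcoef v
    rw [h0, map_zero, mul_zero] at this
    exact_mod_cast this)
  have hsum : ((k.coeff.sum (fun _ a => a) : ℤ) : ℚ) = N * lam (h.coeff.sum (fun _ a => a)) := by
    have e1 : k.coeff.sum (fun _ a => a) = g.sum (fun _ q => ((N : ℚ) * q).num) :=
      Finsupp.sum_mapRange_index (hf := by simp) (fun _ => rfl)
    rw [e1, Finsupp.sum, Int.cast_sum]
    rw [Finset.sum_congr rfl fun v _ => hN v, ← Finset.mul_sum]
    congr 1
    have e2 : g.sum (fun _ a => a) = h.coeff.sum (fun _ a => lam a) :=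
      Finsupp.sum_mapRange_index (fun _ => rfl)
    show g.sum (fun _ a => a) = _
    rw [e2, Finsupp.sum, Finsupp.sum, map_sum]
  rw [hk1, Int.cast_zero] at hsum
  rcases mul_eq_zero.mp hsum.symm with h0 | h0
  · exact hN0 (by exact_mod_cast h0)
  · exact hlam h0

end Pool.Agent.Helper34.EXR
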