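import Pool.Agent.Helper34.EXR.Eval

set_option autoImplicit false

open Finset MvPolynomial

namespace Pool.Agent.Helper34.EXR

/-! ### polynomials vanishing on `Δ = 0` -/

theorem Del_map {K K' : Type*} [CommRing K] [CommRing K'] (φ : K →+* K') (t : Fin 5 → K) :
    φ (Del t) = Del (fun i => φ (t i)) := by
  simp only [Del, map_add, map_sub, map_mul, map_pow, map_one, map_ofNat]

/-- `Δ` as a polynomial -/
noncomputable def DelP : MvPolynomial (Fin 5) ℂ := Del X

theorem eval_DelP (t : Fin 5 → ℂ) : eval t DelP = Del t := by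
  unfold DelP
  rw [Del_map]
  congr 1
  funext i
  simp

noncomputable def cB : MvPolynomial (Fin 4) ℂ :=
  (1 + X 0 - X 2) * (1 + X 1 - X 3) - 2 * (X 0 + X 1)

noncomputable def cA : MvPolynomial (Fin 4) ℂ :=
  (X 0 + X 1) ^ 2 - (1 + X 0 - X 2) * (1 + X 1 - X 3) * (X 0 + X 1)
    + X 1 * (1 + X 0 - X 2) ^ 2 + X 0 * (1 + X 1 - X 3) ^ 2 - 4 * X 0 * X 1

theorem finSucc_DelP : finSuccEquiv ℂ 4 DelP =
    Polynomial.X ^ 2 + (Polynomial.C cB * Polynomial.X + Polynomial.C cA) := by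
  have h := Del_map ((finSuccEquiv ℂ 4).toAlgHom.toRingHom) X
  have h0 : finSuccEquiv ℂ 4 (X 0) = Polynomial.X := finSuccEquiv_X_zero
  have h1 : finSuccEquiv ℂ 4 (X 1) = Polynomial.C (X 0) := finSuccEquiv_X_succ (j := 0)
  have h2 : finSuccEquiv ℂ 4 (X 2) = Polynomial.C (X 1) := finSuccEquiv_X_succ (j := 1)
  have h3 : finSuccEquiv ℂ 4 (X 3) = Polynomial.C (X 2) := finSuccEquiv_X_succ (j := 2)
  have h4 : finSuccEquiv ℂ 4 (X 4) = Polynomial.C (X 3) := finSuccEquiv_X_succ (j := 3)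
  have h' : finSuccEquiv ℂ 4 DelP = Del (fun i => finSuccEquiv ℂ 4 (X i)) := h
  rw [h']
  unfold Del
  simp only [h0, h1, h2, h3, h4, cA, cB, map_add, map_sub, map_mul, map_pow, map_one, map_ofNat]
  ring

theorem DelP_monic : (Polynomial.X ^ 2 + (Polynomial.C cB * Polynomial.X + Polynomial.C cA) :
    Polynomial (MvPolynomial (Fin 4) ℂ)).Monic :=
  Polynomial.monic_X_pow_add (lt_of_le_of_lt Polynomial.degree_linear_le (by norm_num))

theorem dvd_of_vanish (P : MvPolynomial (Fin 5) ℂ) (hP : ∀ t, Del t = 0 → eval t P = 0) :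
    DelP ∣ P := by
  set D : Polynomial (MvPolynomial (Fin 4) ℂ) :=
    Polynomial.X ^ 2 + (Polynomial.C cB * Polynomial.X + Polynomial.C cA) with hD
  have hmon : D.Monic := DelP_monic
  set Q := finSuccEquiv ℂ 4 P with hQ
  set r := Q %ₘ D with hr
  have hdiv := Polynomial.modByMonic_add_div Q D
  have hdeg : r.degree ≤ 1 := by
    have h1 : r.degree < D.degree := Polynomial.degree_modByMonic_lt _ hmon
    have h2 : D.degree = 2 := by
      rw [hD]
      have h3 := Polynomial.degree_linear_le (a := cB) (b := cA)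
      rw [Polynomial.degree_add_eq_left_of_degree_lt]
      · exact Polynomial.degree_X_pow 2
      · rw [Polynomial.degree_X_pow]
        exact lt_of_le_of_lt h3 (by norm_num)
    rw [h2] at h1
    exact Order.le_of_lt_succ h1
  have hrlin := Polynomial.eq_X_add_C_of_degree_le_one hdeg
  -- values
  have hval : ∀ (x : ℂ) (y : Fin 4 → ℂ), Del (Fin.cons x y : Fin 5 → ℂ) = 0 →
      eval y (r.coeff 1) * x + eval y (r.coeff 0) = 0 := by
    intro x y hxy
    have h1 := hP _ hxy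
    rw [eval_eq_eval_mv_eval', ← hQ, ← hdiv, Polynomial.map_add, Polynomial.eval_add,
      Polynomial.map_mul, Polynomial.eval_mul] at h1
    have h2 : Polynomial.eval x (Polynomial.map (eval y) D) = 0 := by
      rw [← hxy, ← eval_DelP, eval_eq_eval_mv_eval', finSucc_DelP]
    rw [h2, zero_mul, add_zero] at h1
    change Polynomial.eval x (Polynomial.map (eval y) r) = 0 at h1
    rw [hrlin] at h1
    simpa using h1
  have hb : ∀ y : Fin 4 → ℂ, eval y (r.coeff 1) * (((1 + y 0 - y 2) ^ 2 - 4 * y 0) *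
      ((1 + y 1 - y 3) ^ 2 - 4 * y 1)) = 0 := by
    intro y
    obtain ⟨a, a', ha, haa⟩ := exists_roots (1 + y 0 - y 2) (y 0)
    obtain ⟨b, b', hb, hbb⟩ := exists_roots (1 + y 1 - y 3) (y 1)
    have e1 : Del (Fin.cons (y 0 + y 1 - (a * b' + a' * b)) y : Fin 5 → ℂ) = 0 := by
      show (y 0 + y 1 - (y 0 + y 1 - (a * b' + a' * b))) ^ 2 - (1 + y 0 - y 2) * (1 + y 1 - y 3) *
        (y 0 + y 1 - (y 0 + y 1 - (a * b' + a' * b))) + y 1 * (1 + y 0 - y 2) ^ 2 +
        y 0 * (1 + y 1 - y 3) ^ 2 - 4 * y 0 * y 1 = 0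
      rw [← ha, ← hb]
      linear_combination (-(a + a') ^ 2) * hbb - (b + b') ^ 2 * haa + 4 * y 1 * haa
        + 4 * a * a' * hbb
    have e2 : Del (Fin.cons (y 0 + y 1 - (a * b + a' * b')) y : Fin 5 → ℂ) = 0 := by
      show (y 0 + y 1 - (y 0 + y 1 - (a * b + a' * b'))) ^ 2 - (1 + y 0 - y 2) * (1 + y 1 - y 3) *
        (y 0 + y 1 - (y 0 + y 1 - (a * b + a' * b'))) + y 1 * (1 + y 0 - y 2) ^ 2 +
        y 0 * (1 + y 1 - y 3) ^ 2 - 4 * y 0 * y 1 = 0
      rw [← ha, ← hb]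
      linear_combination (-(a + a') ^ 2) * hbb - (b + b') ^ 2 * haa + 4 * y 1 * haa
        + 4 * a * a' * hbb
    have v1 := hval _ _ e1
    have v2 := hval _ _ e2
    have h3 : eval y (r.coeff 1) * ((a - a') * (b - b')) = 0 := by
      linear_combination v1 - v2
    have h4 : (1 + y 0 - y 2) ^ 2 - 4 * y 0 = (a - a') ^ 2 := by
      rw [← ha, ← haa]; ring
    have h5 : (1 + y 1 - y 3) ^ 2 - 4 * y 1 = (b - b') ^ 2 := by
      rw [← hb, ← hbb]; ring
    rw [h4, h5]
    linear_combination ((a - a') * (b - b')) * h3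
  have hb0 : r.coeff 1 = 0 := by
    have h1 : r.coeff 1 * (((1 + X 0 - X 2) ^ 2 - 4 * X 0) * ((1 + X 1 - X 3) ^ 2 - 4 * X 1)) =
        0 := by
      apply MvPolynomial.funext
      intro y
      have := hb y
      simpa using this
    rcases mul_eq_zero.mp h1 with h | h
    · exact h
    · exfalso
      rcases mul_eq_zero.mp h with h | h
      · have := congrArg (eval (0 : Fin 4 → ℂ)) h
        simp at this
      · have := congrArg (eval (0 : Fin 4 → ℂ)) h
        simp at this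
  have ha0 : r.coeff 0 = 0 := by
    apply MvPolynomial.funext
    intro y
    obtain ⟨a, a', ha, haa⟩ := exists_roots (1 + y 0 - y 2) (y 0)
    obtain ⟨b, b', hb, hbb⟩ := exists_roots (1 + y 1 - y 3) (y 1)
    have e1 : Del (Fin.cons (y 0 + y 1 - (a * b' + a' * b)) y : Fin 5 → ℂ) = 0 := by
      show (y 0 + y 1 - (y 0 + y 1 - (a * b' + a' * b))) ^ 2 - (1 + y 0 - y 2) * (1 + y 1 - y 3) *
        (y 0 + y 1 - (y 0 + y 1 - (a * b' + a' * b))) + y 1 * (1 + y 0 - y 2) ^ 2 +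
        y 0 * (1 + y 1 - y 3) ^ 2 - 4 * y 0 * y 1 = 0
      rw [← ha, ← hb]
      linear_combination (-(a + a') ^ 2) * hbb - (b + b') ^ 2 * haa + 4 * y 1 * haa
        + 4 * a * a' * hbb
    have v1 := hval _ _ e1
    rw [hb0] at v1
    simpa using v1
  have hr0 : r = 0 := by rw [hrlin, ha0, hb0]; simp
  have hdvd : D ∣ Q := by
    rw [← hdiv]
    change D ∣ r + D * (Q /ₘ D)
    rw [hr0, zero_add]
    exact dvd_mul_right _ _
  obtain ⟨q, hq⟩ := hdvd
  refine ⟨(finSuccEquiv ℂ 4).symm q, ?_⟩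
  apply (finSuccEquiv ℂ 4).injective
  rw [map_mul, AlgEquiv.apply_symm_apply, finSucc_DelP, ← hD, ← hq]

end Pool.Agent.Helper34.EXR
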