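import Pool.Agent.Helper34.EXR.Kernel

set_option autoImplicit false

open Finset MvPolynomial

namespace Pool.Agent.Helper34.EXR

/-- Laurent polynomials in five variables -/
abbrev LP : Type := AddMonoidAlgebra ℂ (Fin 5 → ℤ)

/-- the variables -/
noncomputable def xv (i : Fin 5) : LP := AddMonoidAlgebra.single (Pi.single i 1) 1

/-- `Δ` as a Laurent polynomial -/
noncomputable def DelL : LP := Del xv

noncomputable def evL (t : Fin 5 → ℂ) (ht : ∀ i, t i ≠ 0) : LP →ₐ[ℂ] ℂ :=
  AddMonoidAlgebra.lift ℂ ℂ (Fin 5 → ℤ)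
    { toFun := fun v => mo t v.toAdd
      map_one' := mo_zero t
      map_mul' := fun _ _ => mo_add ht _ _ }

theorem evL_apply (t : Fin 5 → ℂ) (ht : ∀ i, t i ≠ 0) (f : LP) : evL t ht f = hat f.coeff t := by
  unfold evL
  rw [AddMonoidAlgebra.lift_apply']
  rfl

theorem evL_xv (t : Fin 5 → ℂ) (ht : ∀ i, t i ≠ 0) (i : Fin 5) : evL t ht (xv i) = t i := by
  unfold evL xv
  rw [AddMonoidAlgebra.lift_single]
  show (1 : ℂ) • mo t (Pi.single i 1) = t i
  unfold mo
  rw [one_smul, Finset.prod_eq_single i]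
  · simp
  · intro j _ hj
    simp [Pi.single_eq_of_ne hj]
  · intro h
    exact absurd (Finset.mem_univ _) h

theorem evL_DelL (t : Fin 5 → ℂ) (ht : ∀ i, t i ≠ 0) : evL t ht DelL = Del t := by
  have h := Del_map (evL t ht).toRingHom xv
  unfold DelL
  refine h.trans ?_
  congr 1
  funext i
  exact evL_xv t ht i

/-- from polynomials to Laurent polynomials -/
noncomputable def Th : MvPolynomial (Fin 5) ℂ →ₐ[ℂ] LP := aeval xv

theorem Th_DelP : Th DelP = DelL := by
  have h := Del_map Th.toRingHom X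
  unfold DelP DelL
  refine h.trans ?_
  congr 1
  funext i
  exact aeval_X _ i

theorem xv_pow (i : Fin 5) (k : ℕ) : xv i ^ k = AddMonoidAlgebra.single (Pi.single i (k : ℤ)) 1 := by
  unfold xv
  rw [AddMonoidAlgebra.single_pow, one_pow]
  congr 1
  rw [← Pi.single_smul]
  simp

theorem prod_xv_pow (e : Fin 5 → ℕ) : ∏ i, xv i ^ e i =
    AddMonoidAlgebra.single (fun i => (e i : ℤ)) (1 : ℂ) := by
  rw [Finset.prod_congr rfl fun i _ => xv_pow i (e i)]
  rw [Fin.prod_univ_five]
  simp only [AddMonoidAlgebra.single_mul_single, mul_one]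
  congr 1
  funext i
  fin_cases i <;> simp

theorem Th_monomial (e : Fin 5 →₀ ℕ) (c : ℂ) :
    Th (monomial e c) = AddMonoidAlgebra.single (fun i => (e i : ℤ)) c := by
  unfold Th
  rw [aeval_monomial]
  rw [Finsupp.prod_fintype _ _ (by simp), prod_xv_pow]
  have h : algebraMap ℂ LP c = AddMonoidAlgebra.single 0 c := by
    rw [AddMonoidAlgebra.coe_algebraMap]
    rfl
  rw [h, AddMonoidAlgebra.single_mul_single, zero_add, mul_one]

theorem dvd_of_hat (f : LP) (hf : ∀ t, InV t → hat f.coeff t = 0) : DelL ∣ f := by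
  classical
  -- a common shift
  obtain ⟨M, hM⟩ : ∃ M : ℕ, ∀ v ∈ f.coeff.support, ∀ i, 1 ≤ v i + M := by
    refine ⟨f.coeff.support.sup (fun v => Finset.univ.sup fun i => (1 - v i).toNat), ?_⟩
    intro v hv i
    have h1 : (1 - v i).toNat ≤ Finset.univ.sup fun i => (1 - v i).toNat :=
      Finset.le_sup (f := fun i => (1 - v i).toNat) (Finset.mem_univ i)
    have h2 : (Finset.univ.sup fun i => (1 - v i).toNat) ≤
        f.coeff.support.sup (fun v => Finset.univ.sup fun i => (1 - v i).toNat) :=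
      Finset.le_sup (f := fun v : Fin 5 → ℤ => Finset.univ.sup fun i => (1 - v i).toNat) hv
    have h3 := h1.trans h2
    omega
  let sh : (Fin 5 → ℤ) → (Fin 5 →₀ ℕ) := fun v => Finsupp.equivFunOnFinite.symm
    (fun i => (v i + M).toNat)
  let P : MvPolynomial (Fin 5) ℂ := ∑ v ∈ f.coeff.support, monomial (sh v) (f.coeff v)
  have hval : ∀ t, Del t = 0 → eval t P = 0 := by
    intro t ht
    have h1 : eval t P = ∑ v ∈ f.coeff.support, f.coeff v * ∏ i, t i ^ (v i + M).toNat := by
      simp only [P, map_sum]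
      refine Finset.sum_congr rfl fun v _ => ?_
      rw [eval_monomial, Finsupp.prod_fintype _ _ (by simp)]
      rfl
    rw [h1]
    by_cases hz : ∀ i, t i ≠ 0
    · have h2 := hf t ⟨hz, ht⟩
      have h3 : ∀ v ∈ f.coeff.support, f.coeff v * ∏ i, t i ^ (v i + M).toNat =
          mo t (fun _ => (M : ℤ)) * (f.coeff v * mo t v) := by
        intro v hv
        have h4 : ∏ i, t i ^ (v i + M).toNat = mo t v * mo t (fun _ => (M : ℤ)) := by
          rw [← mo_add hz]
          unfold mo
          refine Finset.prod_congr rfl fun i _ => ?_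
          have h5 := hM v hv i
          obtain ⟨k, hk⟩ : ∃ k : ℕ, v i + M = k := ⟨(v i + M).toNat, by omega⟩
          rw [Pi.add_apply, hk]
          simp
        rw [h4]
        ring
      rw [Finset.sum_congr rfl h3, ← Finset.mul_sum]
      have h6 : ∑ v ∈ f.coeff.support, f.coeff v * mo t v = 0 := h2
      rw [h6, mul_zero]
    · push Not at hz
      obtain ⟨j, hj⟩ := hz
      refine Finset.sum_eq_zero fun v hv => ?_
      have h5 := hM v hv j
      have h7 : ∏ i, t i ^ (v i + M).toNat = 0 := by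
        apply Finset.prod_eq_zero (Finset.mem_univ j)
        rw [hj]
        apply zero_pow
        omega
      rw [h7, mul_zero]
  obtain ⟨q, hq⟩ := dvd_of_vanish P hval
  have h1 : Th P = AddMonoidAlgebra.single (fun _ => (M : ℤ)) 1 * f := by
    simp only [P, map_sum]
    have h2 : f = ∑ v ∈ f.coeff.support, AddMonoidAlgebra.single v (f.coeff v) := by
      conv_lhs => rw [← AddMonoidAlgebra.sum_coeff_single f]
      rfl
    conv_rhs => rw [h2]
    rw [Finset.mul_sum]
    refine Finset.sum_congr rfl fun v hv => ?_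
    rw [Th_monomial, AddMonoidAlgebra.single_mul_single, one_mul]
    congr 1
    funext i
    have h5 := hM v hv i
    show (((v i + M).toNat : ℕ) : ℤ) = M + v i
    omega
  have h2 : Th P = DelL * Th q := by rw [hq, map_mul, Th_DelP]
  refine ⟨Th q * AddMonoidAlgebra.single (fun _ => -(M : ℤ)) 1, ?_⟩
  rw [← mul_assoc, ← h2, h1]
  rw [mul_comm, ← mul_assoc, AddMonoidAlgebra.single_mul_single, mul_one]
  have h3 : ((fun _ => -(M : ℤ)) + fun _ => (M : ℤ) : Fin 5 → ℤ) = 0 := by
    funext i; simp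
  rw [h3]
  exact (one_mul f).symm

theorem Del_one : Del (fun _ => (1 : ℂ)) = -2 := by
  unfold Del
  norm_num

/-- the criterion for finite sets of exponents, in terms of multiples of `Δ` -/
theorem crit_bot_iff (S : Set (Fin 5 → ℤ)) : Crit ⊥ S ↔
    ∀ h : LP, ((DelL * h).coeff.support : Set (Fin 5 → ℤ)) ⊆ S →
      h.coeff.sum (fun _ a => a) = 0 := by
  have h1 : ∀ f : LP, f.coeff.sum (fun _ a => a) = evL (fun _ => 1) (fun _ => one_ne_zero) f := by
    intro f
    rw [evL_apply]
    unfold hat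
    exact Finsupp.sum_congr fun v _ => by rw [mo_one, mul_one]
  constructor
  · intro hc h hh
    have h2 := hc (DelL * h).coeff hh fun t ht _ => by
      obtain ⟨ht1, ht2⟩ := ht
      rw [← evL_apply t ht1, map_mul, evL_DelL, ht2, zero_mul]
    rw [← evL_apply _ (fun _ => one_ne_zero), map_mul, evL_DelL, Del_one, ← h1] at h2
    linear_combination (-1/2 : ℂ) * h2
  · intro hc f hf hvan
    obtain ⟨h, hh⟩ := dvd_of_hat ⟨f⟩ fun t ht => hvan t ht fun l hl => by
      rw [AddSubgroup.mem_bot.mp hl, mo_zero]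
    have h2 := hc h (by rw [← hh]; exact hf)
    have h3 : hat f (fun _ => 1) = evL (fun _ => 1) (fun _ => one_ne_zero) (⟨f⟩ : LP) := by
      rw [evL_apply]
    rw [h3, hh, map_mul, ← h1 h, h2, mul_zero]

end Pool.Agent.Helper34.EXR
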