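import Pool.Agent.Helper34.EXR.Rat

set_option autoImplicit false

open Finset Matrix MvPolynomial

namespace Pool.Agent.Helper34.EXR

open Pool.Agent.Helper51.U2

theorem minor_row_eq {n : ℕ} (A : Matrix (Fin 1) (Fin n) RU) (j : Fin n) :
    minor A {j} = A 0 j := by
  have h : ({j} : Finset (Fin n)).card = 1 := Finset.card_singleton j
  rw [minor_eq h, Matrix.det_fin_one]
  have h2 := Finset.orderEmbOfFin_mem {j} h 0
  rw [Finset.mem_singleton] at h2
  show A 0 (({j} : Finset (Fin n)).orderEmbOfFin h 0) = A 0 j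
  rw [h2]

open scoped Classical in
theorem bases_row {n : ℕ} (A : Matrix (Fin 1) (Fin n) RU) (hA : ∀ j, A 0 j ≠ 0) :
    ∑ B ∈ (Finset.univ.filter fun B : Finset (Fin n) => minor A B ≠ 0),
      ∏ _e ∈ B, (1 : ℚ) = n := by
  have h1 : (Finset.univ.filter fun B : Finset (Fin n) => minor A B ≠ 0) =
      Finset.powersetCard 1 Finset.univ := by
    ext B
    rw [Finset.mem_filter, Finset.mem_powersetCard]
    constructor
    · rintro ⟨-, hB⟩
      refine ⟨Finset.subset_univ _, ?_⟩
      by_contra hc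
      apply hB
      unfold minor
      rw [dif_neg hc]
    · rintro ⟨-, hB⟩
      refine ⟨Finset.mem_univ _, ?_⟩
      obtain ⟨j, rfl⟩ := Finset.card_eq_one.mp hB
      rw [minor_row_eq]
      exact hA j
  rw [h1]
  simp

theorem determined_of_counted {S : Set (Fin 5 → ℤ)}
    (h : ∀ (k : ℕ) (T : Finset (Fin 5 → ℤ)), (T : Set (Fin 5 → ℤ)) ⊆ S →
      (∀ v ∈ T, ∀ i, |v i| ≤ k) →
        CountedInt (T : Set (Fin 5 → ℤ)) T.card (20 * k + 12)) : Determined S := by
  classical
  intro n n' A A' hA hA' h0 h0' hg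
  have e1 : ∀ j, ∃ v ∈ S, IsMon v (A 0 j) := by
    intro j
    rcases hA {j} with h | h
    · rw [minor_row_eq] at h
      exact absurd h (h0 j)
    · rw [minor_row_eq] at h
      exact h
  have e2 : ∀ j, ∃ v ∈ S, IsMon v (A' 0 j) := by
    intro j
    rcases hA' {j} with h | h
    · rw [minor_row_eq] at h
      exact absurd h (h0' j)
    · rw [minor_row_eq] at h
      exact h
  choose v hvS hv using e1
  choose v' hvS' hv' using e2
  set T : Finset (Fin 5 → ℤ) := Finset.univ.image v ∪ Finset.univ.image v' with hT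
  obtain ⟨k, hk⟩ : ∃ k : ℕ, ∀ v ∈ T, ∀ i, |v i| ≤ k := by
    refine ⟨T.sup (fun v => Finset.univ.sup fun i => (v i).natAbs), fun v hv i => ?_⟩
    have h1 : (v i).natAbs ≤ Finset.univ.sup fun i => (v i).natAbs :=
      Finset.le_sup (f := fun i => (v i).natAbs) (Finset.mem_univ i)
    have h2 : (Finset.univ.sup fun i => (v i).natAbs) ≤
        T.sup (fun v => Finset.univ.sup fun i => (v i).natAbs) :=
      Finset.le_sup (f := fun v : Fin 5 → ℤ => Finset.univ.sup fun i => (v i).natAbs) hv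
    have h3 := h1.trans h2
    rw [Int.abs_eq_natAbs]
    exact_mod_cast h3
  obtain ⟨c, φ, ψ, -, hf⟩ := h k T (by
    intro x hx
    rw [Finset.mem_coe, hT, Finset.mem_union] at hx
    rcases hx with hx | hx
    · obtain ⟨j, -, rfl⟩ := Finset.mem_image.mp hx
      exact hvS j
    · obtain ⟨j, -, rfl⟩ := Finset.mem_image.mp hx
      exact hvS' j) hk
  have f1 := hf 1 n A (hasExps_row fun j => ⟨v j, by
    rw [Finset.mem_coe, hT, Finset.mem_union]
    exact Or.inl (Finset.mem_image_of_mem _ (Finset.mem_univ j)), hv j⟩) (fun _ => 1)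
  have f2 := hf 1 n' A' (hasExps_row fun j => ⟨v' j, by
    rw [Finset.mem_coe, hT, Finset.mem_union]
    exact Or.inr (Finset.mem_image_of_mem _ (Finset.mem_univ j)), hv' j⟩) (fun _ => 1)
  rw [bases_row A h0] at f1
  rw [bases_row A' h0'] at f2
  have h3 : (n : ℚ) = n' := by
    rw [f1, f2]
    exact Finset.sum_congr rfl fun i _ => by rw [hg ℚ (φ i) (ψ i)]
  exact_mod_cast h3

theorem exact_reach (S : Set (Fin 5 → ℤ)) :
    [∀ (k : ℕ) (T : Finset (Fin 5 → ℤ)), (T : Set (Fin 5 → ℤ)) ⊆ S →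
       (∀ v ∈ T, ∀ i, |v i| ≤ k) → CountedInt (T : Set (Fin 5 → ℤ)) T.card (20 * k + 12),
     Determined S,
     ∀ h : AddMonoidAlgebra ℤ (Fin 5 → ℤ),
       ((DelK ℤ * h).coeff.support : Set (Fin 5 → ℤ)) ⊆ S →
         h.coeff.sum (fun _ a => a) = 0].TFAE := by
  tfae_have 1 → 2 := determined_of_counted
  tfae_have 2 → 3 := by
    intro h q hq
    by_contra hne
    exact not_determined q hq hne h
  tfae_have 3 → 1 := by
    intro h k T hT hk
    exact counted_rat k T (fun v hv => hT hv) hk ((crit_bot_iff S).mpr (complex_of_int h))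
  tfae_finish

theorem mem_support_DelL {v : Fin 5 → ℤ} :
    v ∈ DelL.coeff.support ↔ v ∈ (DelK ℤ).coeff.support := by
  have h : DelL = AddMonoidAlgebra.mapRingHom _ (Int.castRingHom ℂ) (DelK ℤ) :=
    (DelK_map (Int.castRingHom ℂ)).symm
  rw [Finsupp.mem_support_iff, Finsupp.mem_support_iff, h, AddMonoidAlgebra.coeff_mapRingHom]
  show ((((DelK ℤ).coeff v : ℤ) : ℂ) ≠ 0) ↔ _
  exact not_congr Int.cast_eq_zero

theorem strip_int {l w : Fin 5 → ℤ} (hw : dot l w = 1) (m : ℤ) (k : ℕ) :
    (∀ h : AddMonoidAlgebra ℤ (Fin 5 → ℤ),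
       ((DelK ℤ * h).coeff.support : Set (Fin 5 → ℤ)) ⊆ strip l m k →
         h.coeff.sum (fun _ a => a) = 0) ↔
      ∃ μ ∈ (DelK ℤ).coeff.support, ∃ ν ∈ (DelK ℤ).coeff.support,
        (k : ℤ) < dot l μ - dot l ν := by
  have h1 : (∃ μ ∈ (DelK ℤ).coeff.support, ∃ ν ∈ (DelK ℤ).coeff.support,
      (k : ℤ) < dot l μ - dot l ν) ↔ ∃ μ ∈ DelL.coeff.support, ∃ ν ∈ DelL.coeff.support,
      (k : ℤ) < dot l μ - dot l ν := by
    simp only [mem_support_DelL]
  rw [h1, ← strip_crit_iff hw (m := m) (k := k), crit_bot_iff]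
  constructor
  · exact complex_of_int
  · intro h q hq
    by_contra hne
    have e1 := not_determined q hq hne
    exact e1 (determined_of_counted fun k' T hT hk' =>
      counted_rat k' T (fun v hv => hT hv) hk' ((crit_bot_iff _).mpr h))

theorem coset_classes (L : AddSubgroup (Fin 5 → ℤ)) (S : Set (Fin 5 → ℤ))
    (T : Finset (Fin 5 → ℤ)) (hS : ∀ v, v ∈ S ↔ ∃ u ∈ T, ∃ l ∈ L, v = u + l) :
    [Counted ℂ S T.card, ∃ N, CountedOne S N, Crit L S].TFAE := by
  tfae_have 1 → 2 := fun h => ⟨_, countedOne_of_counted h⟩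
  tfae_have 2 → 3 := by
    rintro ⟨N, h⟩
    refine crit_of_countedOne L (fun v hv l hl => ?_) h
    obtain ⟨u, hu, l', hl', rfl⟩ := (hS v).mp hv
    exact (hS _).mpr ⟨u, hu, l' + l, L.add_mem hl' hl, by rw [add_assoc]⟩
  tfae_have 3 → 1 := fun h => counted_of_crit L T
    (fun v hv => (hS v).mpr ⟨v, hv, 0, L.zero_mem, (add_zero v).symm⟩) (fun v hv => (hS v).mp hv) h
  tfae_finish

theorem fifteen_key {l : Fin 5 → ℤ} (hl : l ∈ fifteen) : ∃ j : ℤ, ∀ u : ℂ, u ≠ 0 →
    Del (fun i => u ^ l i) = u ^ j * (u ^ 2 - 4 * u + 1) := by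
  simp only [fifteen, Finset.mem_insert, Finset.mem_singleton] at hl
  rcases hl with rfl | rfl | rfl | rfl | rfl | rfl | rfl | rfl | rfl | rfl | rfl | rfl | rfl |
    rfl | rfl
  · refine ⟨0, fun u hu => ?_⟩
    simp [Del]
    try field_simp
    try ring
  · refine ⟨0, fun u hu => ?_⟩
    simp [Del]
    try field_simp
    try ring
  · refine ⟨0, fun u hu => ?_⟩
    simp [Del]
    try field_simp
    try ring
  · refine ⟨0, fun u hu => ?_⟩
    simp [Del]
    try field_simp
    try ring
  · refine ⟨0, fun u hu => ?_⟩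
    simp [Del]
    try field_simp
    try ring
  · refine ⟨0, fun u hu => ?_⟩
    simp [Del]
    try field_simp
    try ring
  · refine ⟨0, fun u hu => ?_⟩
    simp [Del]
    try field_simp
    try ring
  · refine ⟨0, fun u hu => ?_⟩
    simp [Del]
    try field_simp
    try ring
  · refine ⟨1, fun u hu => ?_⟩
    simp [Del]
    try field_simp
    try ring
  · refine ⟨1, fun u hu => ?_⟩
    simp [Del]
    try field_simp
    try ring
  · refine ⟨1, fun u hu => ?_⟩
    simp [Del]
    try field_simp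
    try ring
  · refine ⟨1, fun u hu => ?_⟩
    simp [Del]
    try field_simp
    try ring
  · refine ⟨-1, fun u hu => ?_⟩
    simp [Del]
    try field_simp
    try ring
  · refine ⟨-1, fun u hu => ?_⟩
    simp [Del]
    try field_simp
    try ring
  · refine ⟨2, fun u hu => ?_⟩
    simp [Del]
    try field_simp
    try ring

theorem fifteen_ncard {l : Fin 5 → ℤ} (hl : l ∈ fifteen) : (Zs l).ncard = 2 := by
  obtain ⟨j, hj⟩ := fifteen_key hl
  set s : ℂ := ((Real.sqrt 3 : ℝ) : ℂ) with hs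
  have hs2 : s ^ 2 = 3 := by
    rw [hs, ← Complex.ofReal_pow, Real.sq_sqrt (by norm_num)]
    norm_num
  have hs0 : s ≠ 0 := by
    intro h
    rw [h] at hs2
    norm_num at hs2
  have hset : Zs l = {2 + s, 2 - s} := by
    ext u
    simp only [Set.mem_insert_iff, Set.mem_singleton_iff]
    constructor
    · rintro ⟨hu, h⟩
      rw [hj u hu] at h
      rcases mul_eq_zero.mp h with h1 | h1
      · exact absurd h1 (zpow_ne_zero _ hu)
      · have h2 : (u - (2 + s)) * (u - (2 - s)) = 0 := by linear_combination h1 - hs2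
        rcases mul_eq_zero.mp h2 with h3 | h3
        · left; linear_combination h3
        · right; linear_combination h3
    · have hprod : (2 + s) * (2 - s) = 1 := by linear_combination -hs2
      rintro (rfl | rfl)
      · have hu : (2 + s) ≠ 0 := left_ne_zero_of_mul (by rw [hprod]; exact one_ne_zero)
        refine ⟨hu, ?_⟩
        rw [hj _ hu]
        have : (2 + s) ^ 2 - 4 * (2 + s) + 1 = 0 := by linear_combination hs2
        rw [this, mul_zero]
      · have hu : (2 - s) ≠ 0 := right_ne_zero_of_mul (by rw [hprod]; exact one_ne_zero)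
        refine ⟨hu, ?_⟩
        rw [hj _ hu]
        have : (2 - s) ^ 2 - 4 * (2 - s) + 1 = 0 := by linear_combination hs2
        rw [this, mul_zero]
  rw [hset, Set.ncard_pair]
  intro h
  apply hs0
  linear_combination (1 / 2 : ℂ) * h

end Pool.Agent.Helper34.EXR
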