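import Pool.Agent.Helper34.EXR.Ints

set_option autoImplicit false

open Finset Matrix MvPolynomial

namespace Pool.Agent.Helper34.EXR

open Pool.Agent.Helper51.U2

/-- the products of the generators at two points -/
noncomputable def Gp : Fin 5 → MvPolynomial (Fin 4) ℚ :=
  ![(X 0 - X 1) * (X 2 - X 3), X 0 * X 2, X 1 * X 3, (1 - X 0) * (1 - X 2), (1 - X 1) * (1 - X 3)]

theorem Gp_eval {K : Type} [Field K] [Algebra ℚ K] (φ ψ : RU →+* K) (i : Fin 5) :
    aeval ![φ al, φ be, ψ al, ψ be] (Gp i) = φ (gen i) * ψ (gen i) := by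
  have g0 : gen 0 = al - be := rfl
  have g1 : gen 1 = al := rfl
  have g2 : gen 2 = be := rfl
  have g3 : gen 3 = 1 - al := rfl
  have g4 : gen 4 = 1 - be := rfl
  fin_cases i
  · show aeval _ ((X 0 - X 1) * (X 2 - X 3)) = φ (al - be) * ψ (al - be)
    simp
  · show aeval _ (X 0 * X 2) = φ al * ψ al
    simp
  · show aeval _ (X 1 * X 3) = φ be * ψ be
    simp
  · show aeval _ ((1 - X 0) * (1 - X 2)) = φ (1 - al) * ψ (1 - al)
    simp
  · show aeval _ ((1 - X 1) * (1 - X 3)) = φ (1 - be) * ψ (1 - be)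
    simp

theorem exists_pairs {K : Type} [Field K] [Algebra ℚ K] (x : Fin 4 → K)
    (hx : ∀ i, aeval x (Gp i) ≠ 0) : ∃ φ ψ : RU →+* K, x = ![φ al, φ be, ψ al, ψ be] := by
  have h0 : aeval x (Gp 0) = (x 0 - x 1) * (x 2 - x 3) := by
    show aeval x ((X 0 - X 1) * (X 2 - X 3)) = _
    simp
  have h1 : aeval x (Gp 1) = x 0 * x 2 := by
    show aeval x (X 0 * X 2) = _
    simp
  have h2 : aeval x (Gp 2) = x 1 * x 3 := by
    show aeval x (X 1 * X 3) = _
    simp
  have h3 : aeval x (Gp 3) = (1 - x 0) * (1 - x 2) := by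
    show aeval x ((1 - X 0) * (1 - X 2)) = _
    simp
  have h4 : aeval x (Gp 4) = (1 - x 1) * (1 - x 3) := by
    show aeval x ((1 - X 1) * (1 - X 3)) = _
    simp
  have n0 := hx 0
  have n1 := hx 1
  have n2 := hx 2
  have n3 := hx 3
  have n4 := hx 4
  rw [h0] at n0
  rw [h1] at n1
  rw [h2] at n2
  rw [h3] at n3
  rw [h4] at n4
  obtain ⟨φ, f1, f2⟩ := exists_eval (left_ne_zero_of_mul n1) (left_ne_zero_of_mul n2)
    (left_ne_zero_of_mul n3) (left_ne_zero_of_mul n4) (left_ne_zero_of_mul n0)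
  obtain ⟨ψ, g1, g2⟩ := exists_eval (right_ne_zero_of_mul n1) (right_ne_zero_of_mul n2)
    (right_ne_zero_of_mul n3) (right_ne_zero_of_mul n4) (right_ne_zero_of_mul n0)
  refine ⟨φ, ψ, ?_⟩
  rw [f1, f2, g1, g2]
  funext i
  fin_cases i <;> rfl

theorem Gp_deg (i : Fin 5) : (Gp i).totalDegree ≤ 2 := by
  have hX : ∀ a : Fin 4, (X a : MvPolynomial (Fin 4) ℚ).totalDegree ≤ 1 := fun a =>
    (totalDegree_X a).le
  have hd : ∀ p q : MvPolynomial (Fin 4) ℚ, p.totalDegree ≤ 1 → q.totalDegree ≤ 1 →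
      (p - q).totalDegree ≤ 1 := fun p q hp hq =>
    (totalDegree_sub p q).trans (max_le hp hq)
  have hm : ∀ p q : MvPolynomial (Fin 4) ℚ, p.totalDegree ≤ 1 → q.totalDegree ≤ 1 →
      (p * q).totalDegree ≤ 2 := fun p q hp hq =>
    (totalDegree_mul p q).trans (by omega)
  have h1 : (1 : MvPolynomial (Fin 4) ℚ).totalDegree ≤ 1 := by
    rw [totalDegree_one]
    omega
  fin_cases i
  · exact hm _ _ (hd _ _ (hX 0) (hX 1)) (hd _ _ (hX 2) (hX 3))
  · exact hm _ _ (hX 0) (hX 2)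
  · exact hm _ _ (hX 1) (hX 3)
  · exact hm _ _ (hd _ _ h1 (hX 0)) (hd _ _ h1 (hX 2))
  · exact hm _ _ (hd _ _ h1 (hX 1)) (hd _ _ h1 (hX 3))

/-- integer points in a box are enough -/
theorem rat_vanish (k : ℕ) (f : (Fin 5 → ℤ) →₀ ℚ) (hk : ∀ v ∈ f.support, ∀ i, |v i| ≤ k)
    (hf : ∀ φ ψ : RU →+* ℚ, IntPt (20 * k + 12) φ → IntPt (20 * k + 12) ψ →
      f.sum (fun v a => a * mo (fun i => φ (gen i) * ψ (gen i)) v) = 0)
    (φ ψ : RU →+* ℂ) :
    f.sum (fun v a => (a : ℂ) * mo (fun i => φ (gen i) * ψ (gen i)) v) = 0 := by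
  classical
  set M : ℕ := k + 1 with hMdef
  have hM : ∀ v ∈ f.support, ∀ i, 1 ≤ v i + M := by
    intro v hv i
    have := abs_le.mp (hk v hv i)
    omega
  have hM2 : ∀ v ∈ f.support, ∀ i, (v i + M).toNat ≤ 2 * k + 1 := by
    intro v hv i
    have := abs_le.mp (hk v hv i)
    omega
  let P : MvPolynomial (Fin 4) ℚ := ∑ v ∈ f.support, C (f v) * ∏ i, Gp i ^ (v i + M).toNat
  have hP : ∀ (K : Type) [Field K] [Algebra ℚ K] (x : Fin 4 → K),
      aeval x P = ∑ v ∈ f.support, algebraMap ℚ K (f v) * ∏ i, aeval x (Gp i) ^ (v i + M).toNat := by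
    intro K _ _ x
    simp only [P, map_sum, map_mul, map_prod, map_pow, aeval_C]
  have hP2 : ∀ (K : Type) [Field K] [Algebra ℚ K] (x : Fin 4 → K), (∀ i, aeval x (Gp i) ≠ 0) →
      aeval x P = mo (fun i => aeval x (Gp i)) (fun _ => (M : ℤ)) *
        ∑ v ∈ f.support, algebraMap ℚ K (f v) * mo (fun i => aeval x (Gp i)) v := by
    intro K _ _ x hx
    rw [hP, Finset.mul_sum]
    refine Finset.sum_congr rfl fun v hv => ?_
    have h4 : ∏ i, aeval x (Gp i) ^ (v i + M).toNat =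
        mo (fun i => aeval x (Gp i)) v * mo (fun i => aeval x (Gp i)) (fun _ => (M : ℤ)) := by
      rw [← mo_add hx]
      unfold mo
      refine Finset.prod_congr rfl fun i _ => ?_
      have h5 := hM v hv i
      obtain ⟨k, hk⟩ : ∃ k : ℕ, v i + M = k := ⟨(v i + M).toNat, by omega⟩
      rw [Pi.add_apply, hk]
      simp
    rw [h4]
    ring
  have hdeg : P.totalDegree ≤ 20 * k + 10 := by
    refine totalDegree_finsetSum_le fun v hv => ?_
    refine (totalDegree_mul _ _).trans ?_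
    rw [totalDegree_C, zero_add]
    refine (totalDegree_finsetProd _ _).trans ?_
    have h1 : ∀ i ∈ (Finset.univ : Finset (Fin 5)),
        (Gp i ^ (v i + M).toNat).totalDegree ≤ (2 * k + 1) * 2 := fun i _ =>
      (totalDegree_pow _ _).trans (Nat.mul_le_mul (hM2 v hv i) (Gp_deg i))
    refine (Finset.sum_le_card_nsmul _ _ _ h1).trans ?_
    simp only [Finset.card_univ, Fintype.card_fin, smul_eq_mul]
    omega
  have hP0 : P = 0 := by
    apply eq_zero_of_eval_zero_at_prod_finset P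
      (fun _ => (Finset.Icc 2 (20 * k + 12)).image (fun a : ℕ => (a : ℚ)))
    · intro i
      rw [Finset.card_image_of_injective _ Nat.cast_injective, Nat.card_Icc]
      have := degreeOf_le_totalDegree P i
      omega
    · intro x hxΛ
      have hx' : ∀ i, ∃ a : ℕ, 2 ≤ a ∧ a ≤ 20 * k + 12 ∧ x i = a := by
        intro i
        obtain ⟨a, ha, hax⟩ := Finset.mem_image.mp (hxΛ i)
        rw [Finset.mem_Icc] at ha
        exact ⟨a, ha.1, ha.2, hax.symm⟩
      have h1 : eval x P = aeval x P := by rw [← MvPolynomial.coe_aeval_eq_eval]; rfl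
      rw [h1]
      by_cases hx : ∀ i, aeval x (Gp i) ≠ 0
      · obtain ⟨φ', ψ', hxe⟩ := exists_pairs x hx
        have e0 : φ' al = x 0 := by rw [hxe]; rfl
        have e1 : φ' be = x 1 := by rw [hxe]; rfl
        have e2 : ψ' al = x 2 := by rw [hxe]; rfl
        have e3 : ψ' be = x 3 := by rw [hxe]; rfl
        obtain ⟨a0, b0, c0, d0⟩ := hx' 0
        obtain ⟨a1, b1, c1, d1⟩ := hx' 1
        obtain ⟨a2, b2, c2, d2⟩ := hx' 2
        obtain ⟨a3, b3, c3, d3⟩ := hx' 3
        rw [hP2 ℚ _ hx]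
        have h2 := hf φ' ψ' ⟨a0, a1, b0, c0, b1, c1, e0.trans d0, e1.trans d1⟩
          ⟨a2, a3, b2, c2, b3, c3, e2.trans d2, e3.trans d3⟩
        have h3 : (fun i => aeval x (Gp i)) = fun i => φ' (gen i) * ψ' (gen i) := by
          funext i
          rw [hxe]
          exact Gp_eval φ' ψ' i
        rw [h3]
        unfold Finsupp.sum at h2
        have h4 : ∀ v, algebraMap ℚ ℚ (f v) = f v := fun v => rfl
        simp only [h4]
        rw [h2, mul_zero]
      · push Not at hx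
        obtain ⟨j, hj⟩ := hx
        rw [hP]
        refine Finset.sum_eq_zero fun v hv => ?_
        have h5 := hM v hv j
        have h7 : ∏ i, aeval x (Gp i) ^ (v i + M).toNat = 0 := by
          apply Finset.prod_eq_zero (Finset.mem_univ j)
          rw [hj]
          apply zero_pow
          omega
        rw [h7, mul_zero]
  have h6 : ∀ i, aeval ![φ al, φ be, ψ al, ψ be] (Gp i) = φ (gen i) * ψ (gen i) := Gp_eval φ ψ
  have h7 := hP2 ℂ ![φ al, φ be, ψ al, ψ be] (fun i => by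
    rw [h6]
    exact mul_ne_zero (phi_gen_ne φ i) (phi_gen_ne ψ i))
  rw [hP0, map_zero] at h7
  have h8 : (fun i => aeval ![φ al, φ be, ψ al, ψ be] (Gp i)) =
      fun i => φ (gen i) * ψ (gen i) := funext h6
  rw [h8] at h7
  rcases mul_eq_zero.mp h7.symm with h9 | h9
  · exact absurd h9 (mo_ne_zero (fun i => mul_ne_zero (phi_gen_ne φ i) (phi_gen_ne ψ i)) _)
  · exact h9

theorem span_rat {S : Set (Fin 5 → ℤ)} (k : ℕ) (T : Finset (Fin 5 → ℤ))
    (hTS : ∀ v ∈ T, v ∈ S) (hTk : ∀ v ∈ T, ∀ i, |v i| ≤ k) (h : Crit ⊥ S) :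
    (fun _ : T => (1 : ℚ)) ∈ Submodule.span ℚ
      {e : T → ℚ | ∃ φ ψ : RU →+* ℚ, IntPt (20 * k + 12) φ ∧ IntPt (20 * k + 12) ψ ∧
        e = fun v : T => mo (fun i => φ (gen i) * ψ (gen i)) v} := by
  classical
  by_contra hn
  obtain ⟨F, hF1, hF⟩ := Submodule.exists_le_ker_of_notMem hn
  let f : (Fin 5 → ℤ) →₀ ℚ := ∑ v : T, Finsupp.single (v : Fin 5 → ℤ) (F (Pi.single v 1))
  have hdec : ∀ e : T → ℚ, F e = ∑ v : T, F (Pi.single v 1) * e v := by
    intro e
    have he : e = ∑ v : T, e v • (Pi.single v (1 : ℚ) : T → ℚ) := by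
      funext x
      simp [Finset.sum_apply, Pi.single_apply]
    conv_lhs => rw [he]
    rw [map_sum]
    refine Finset.sum_congr rfl fun v _ => ?_
    rw [map_smul, smul_eq_mul, mul_comm]
  have sum_f : ∀ g : (Fin 5 → ℤ) → ℚ, f.sum (fun v a => a * g v) = F (fun v : T => g v) := by
    intro g
    rw [hdec]
    simp only [f]
    rw [← Finsupp.sum_finsetSum_index (h := fun (v : Fin 5 → ℤ) (a : ℚ) => a * g v)
      (fun _ => by simp) (fun _ _ _ => by ring)]
    refine Finset.sum_congr rfl fun v _ => ?_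
    rw [Finsupp.sum_single_index (by simp)]
  have hsuppT : ∀ v ∈ f.support, v ∈ T := by
    intro v hv
    by_contra hvT
    rw [Finsupp.mem_support_iff] at hv
    apply hv
    simp only [f, Finsupp.coe_finsetSum, Finset.sum_apply]
    refine Finset.sum_eq_zero fun x _ => ?_
    rw [Finsupp.single_apply, if_neg]
    rintro rfl
    exact hvT x.2
  have hvan := rat_vanish k f (fun v hv => hTk v (hsuppT v hv)) fun φ ψ hφ hψ => by
    rw [sum_f]
    exact LinearMap.mem_ker.mp (hF (Submodule.subset_span ⟨φ, ψ, hφ, hψ, rfl⟩))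
  have h0 := h (f.mapRange (fun q : ℚ => (q : ℂ)) (by simp)) (by
    intro v hv
    apply hTS
    apply hsuppT
    exact Finsupp.support_mapRange hv) fun t ht _ => by
    obtain ⟨φ, ψ, hφ⟩ := exists_homs ht
    have e1 : t = fun i => φ (gen i) * ψ (gen i) := funext hφ
    unfold hat
    rw [Finsupp.sum_mapRange_index (by simp), e1]
    exact hvan φ ψ
  unfold hat at h0
  rw [Finsupp.sum_mapRange_index (by simp)] at h0
  apply hF1
  have h2 := sum_f (fun _ => 1)
  rw [← h2]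
  have h3 : ((f.sum (fun _ a => a * (1 : ℚ)) : ℚ) : ℂ) = 0 := by
    rw [← h0]
    unfold Finsupp.sum
    rw [Rat.cast_sum]
    refine Finset.sum_congr rfl fun v _ => ?_
    show ((f v * 1 : ℚ) : ℂ) = ((f v : ℚ) : ℂ) * mo (fun _ => (1 : ℂ)) v
    rw [mo_one, mul_one, mul_one]
  exact_mod_cast h3

theorem counted_rat {S : Set (Fin 5 → ℤ)} (k : ℕ) (T : Finset (Fin 5 → ℤ)) (hTS : ∀ v ∈ T, v ∈ S)
    (hTk : ∀ v ∈ T, ∀ i, |v i| ≤ k) (h : Crit ⊥ S) :
    CountedInt (T : Set (Fin 5 → ℤ)) T.card (20 * k + 12) := by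
  classical
  have h1 := span_rat k T hTS hTk h
  obtain ⟨b, hbs, hspan, hli⟩ := exists_linearIndependent ℚ
    {e : T → ℚ | ∃ φ ψ : RU →+* ℚ, IntPt (20 * k + 12) φ ∧ IntPt (20 * k + 12) ψ ∧
      e = fun v : T => mo (fun i => φ (gen i) * ψ (gen i)) v}
  rw [← hspan] at h1
  have hbfin : b.Finite := hli.setFinite
  have : Fintype b := hbfin.fintype
  have hcard : Fintype.card b ≤ T.card := by
    have := hli.fintype_card_le_finrank
    simpa using this
  obtain ⟨a, ha⟩ := (Finsupp.mem_span_iff_linearCombination _ _ _).mp h1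
  have hch : ∀ x : b, ∃ φ ψ : RU →+* ℚ, IntPt (20 * k + 12) φ ∧ IntPt (20 * k + 12) ψ ∧
      x.1 = fun v : T => mo (fun i => φ (gen i) * ψ (gen i)) v := fun x => hbs x.2
  choose φ ψ hφI hψI hφψ using hch
  obtain ⟨φ0, hφ0, hφ0'⟩ := exists_eval (K := ℚ) (x := 2) (y := 3) (by norm_num) (by norm_num)
    (by norm_num) (by norm_num) (by norm_num)
  have hI0 : IntPt (20 * k + 12) φ0 :=
    ⟨2, 3, by omega, by omega, by omega, by omega, by rw [hφ0]; norm_num, by rw [hφ0']; norm_num⟩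
  let ι : b → Fin T.card := fun x => Fin.castLE hcard (Fintype.equivFin b x)
  have hι : Function.Injective ι := fun x y hxy =>
    (Fintype.equivFin b).injective (Fin.castLE_injective hcard hxy)
  refine ⟨fun i => ∑ x : b, if ι x = i then a x else 0,
    Function.extend ι φ (fun _ => φ0), Function.extend ι ψ (fun _ => φ0), fun i => ?_,
    fun r n A hA w => formula_of _ _ _ (fun v hv => ?_) r n A hA w⟩
  · by_cases hi : ∃ x, ι x = i
    · obtain ⟨x, rfl⟩ := hi
      rw [hι.extend_apply, hι.extend_apply]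
      exact ⟨hφI x, hψI x⟩
    · rw [Function.extend_apply' _ _ _ hi, Function.extend_apply' _ _ _ hi]
      exact ⟨hI0, hI0⟩
  have h2 : ∀ i, (∑ x : b, if ι x = i then a x else 0) * mo (fun j =>
      (Function.extend ι φ (fun _ => φ0) i) (gen j) *
        (Function.extend ι ψ (fun _ => φ0) i) (gen j)) v =
      ∑ x : b, if ι x = i then a x * x.1 ⟨v, hv⟩ else 0 := by
    intro i
    rw [Finset.sum_mul]
    refine Finset.sum_congr rfl fun x _ => ?_
    split_ifs with hx
    · subst hx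
      rw [hι.extend_apply, hι.extend_apply, hφψ]
    · rw [zero_mul]
  rw [Finset.sum_congr rfl fun i _ => h2 i, Finset.sum_comm]
  have h3 : ∀ x : b, (∑ i, if ι x = i then a x * x.1 ⟨v, hv⟩ else 0) =
      a x * x.1 ⟨v, hv⟩ := by
    intro x
    rw [Finset.sum_ite_eq, if_pos (Finset.mem_univ _)]
  rw [Finset.sum_congr rfl fun x _ => h3 x]
  have h4 := congrFun ha ⟨v, hv⟩
  rw [Finsupp.linearCombination_apply, Finsupp.sum_fintype _ _ (by simp)] at h4
  simpa [Finset.sum_apply] using h4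

end Pool.Agent.Helper34.EXR
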