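import Pool.Agent.Helper34.EXR.Width

set_option autoImplicit false

open Finset Matrix MvPolynomial

namespace Pool.Agent.Helper34.EXR

open Pool.Agent.Helper51.U2

theorem DelK_map {K K' : Type*} [CommRing K] [CommRing K'] (f : K →+* K') :
    AddMonoidAlgebra.mapRingHom _ f (DelK K) = DelK K' := by
  unfold DelK
  rw [Del_map]
  congr 1
  funext i
  unfold xvK
  simp

/-- the unit with exponent vector `v` -/
noncomputable def monU (v : Fin 5 → ℤ) : RUˣ := ∏ i, (gen_isUnit i).unit ^ v i

theorem monU_zero : monU 0 = 1 := by simp [monU]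

theorem monU_add (v w : Fin 5 → ℤ) : monU (v + w) = monU v * monU w := by
  unfold monU
  rw [← Finset.prod_mul_distrib]
  exact Finset.prod_congr rfl fun i _ => by rw [Pi.add_apply, _root_.zpow_add]

theorem monU_single (i : Fin 5) : ((monU (Pi.single i 1) : RUˣ) : RU) = gen i := by
  unfold monU
  rw [Finset.prod_eq_single i]
  · simp
  · intro j _ hj
    simp [Pi.single_eq_of_ne hj]
  · intro h
    exact absurd (Finset.mem_univ _) h

theorem isMon_monU (v : Fin 5 → ℤ) : IsMon v (monU v : RU) := by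
  refine ⟨1, Or.inl rfl, ?_⟩
  unfold monU
  rw [Units.coe_prod, ← Finset.prod_mul_distrib, one_mul]
  refine Finset.prod_congr rfl fun i _ => ?_
  obtain ⟨u, hu⟩ := gen_isUnit i
  have h1 : (gen_isUnit i).unit = u := by ext; simp [hu]
  rw [h1, ← hu]
  rcases le_total 0 (v i) with h | h
  · obtain ⟨k, hk⟩ : ∃ k : ℕ, v i = k := ⟨(v i).toNat, by omega⟩
    rw [hk]
    simp
  · obtain ⟨k, hk⟩ : ∃ k : ℕ, v i = -(k : ℤ) := ⟨(-v i).toNat, by omega⟩
    rw [hk]
    simp only [neg_neg, Int.toNat_natCast]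
    rw [← Units.val_pow_eq_pow_val, ← Units.val_mul]
    have : u ^ (-(k : ℤ)) * u ^ k = 1 := by simp
    rw [this]
    simp

/-- the homomorphism of group rings given by a pair of homomorphisms -/
noncomputable def pairHom {K : Type*} [CommRing K] (φ ψ : RU →+* K) :
    AddMonoidAlgebra ℤ (Fin 5 → ℤ) →ₐ[ℤ] K :=
  AddMonoidAlgebra.lift ℤ K (Fin 5 → ℤ)
    { toFun := fun v => φ (monU v.toAdd) * ψ (monU v.toAdd)
      map_one' := by simp [monU_zero]
      map_mul' := fun a b => by
        rw [toAdd_mul, monU_add, Units.val_mul, map_mul, map_mul]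
        ring }

theorem pairHom_single {K : Type*} [CommRing K] (φ ψ : RU →+* K) (v : Fin 5 → ℤ) (n : ℤ) :
    pairHom φ ψ (AddMonoidAlgebra.single v n) = n • (φ (monU v) * ψ (monU v)) := by
  unfold pairHom
  rw [AddMonoidAlgebra.lift_single]
  rfl

theorem pairHom_Del {K : Type*} [CommRing K] (φ ψ : RU →+* K) : pairHom φ ψ (DelK ℤ) = 0 := by
  have h := Del_map (pairHom φ ψ).toRingHom (xvK ℤ)
  unfold DelK
  refine h.trans ?_
  have h2 : (fun i => (pairHom φ ψ).toRingHom (xvK ℤ i)) = fun i => φ (gen i) * ψ (gen i) := by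
    funext i
    have h3 := pairHom_single φ ψ (Pi.single i 1) 1
    rw [one_smul, monU_single] at h3
    exact h3
  rw [h2]
  have g0 : gen 0 = al - be := rfl
  have g1 : gen 1 = al := rfl
  have g2 : gen 2 = be := rfl
  have g3 : gen 3 = 1 - al := rfl
  have g4 : gen 4 = 1 - be := rfl
  simp only [Del, g0, g1, g2, g3, g4, map_sub, map_one]
  ring

/-- a one-row matrix with given exponent vectors -/
noncomputable def rowM (l : List (Fin 5 → ℤ)) : Matrix (Fin 1) (Fin l.length) RU :=
  Matrix.of fun _ j => (monU (l.get j) : RU)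

theorem gram_row {K : Type*} [CommRing K] {n : ℕ} (A : Matrix (Fin 1) (Fin n) RU)
    (φ ψ : RU →+* K) : gram A (fun _ => 1) φ ψ = ∑ j, φ (A 0 j) * ψ (A 0 j) := by
  unfold gram
  rw [Matrix.det_fin_one, Matrix.mul_apply]
  refine Finset.sum_congr rfl fun j _ => ?_
  rw [Matrix.mul_diagonal, mul_one]
  rfl

theorem gram_rowM {K : Type*} [CommRing K] (l : List (Fin 5 → ℤ)) (φ ψ : RU →+* K) :
    gram (rowM l) (fun _ => 1) φ ψ = (l.map fun v => φ (monU v) * ψ (monU v)).sum := by
  rw [gram_row]
  have h : (l.map fun v => φ (monU v : RU) * ψ (monU v : RU)) =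
      List.ofFn (fun j : Fin l.length => φ (monU (l.get j) : RU) * ψ (monU (l.get j) : RU)) := by
    conv_lhs => rw [← List.ofFn_get l]
    rw [List.map_ofFn]
    rfl
  rw [h, List.sum_ofFn]
  rfl

theorem hasExps_row {n : ℕ} {A : Matrix (Fin 1) (Fin n) RU} {S : Set (Fin 5 → ℤ)}
    (h : ∀ j, ∃ v ∈ S, IsMon v (A 0 j)) : HasExps A S := by
  intro B
  by_cases hB : B.card = 1
  · right
    rw [minor_eq hB, Matrix.det_fin_one]
    exact h _
  · left
    unfold minor
    rw [dif_neg hB]

/-- the list of exponent vectors with multiplicities `(f v).toNat` -/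
noncomputable def posList (f : (Fin 5 → ℤ) →₀ ℤ) : List (Fin 5 → ℤ) :=
  f.support.toList.flatMap fun v => List.replicate (f v).toNat v

theorem sum_posList {K : Type*} [CommRing K] (f : (Fin 5 → ℤ) →₀ ℤ) (F : (Fin 5 → ℤ) → K) :
    ((posList f).map F).sum = ∑ v ∈ f.support, ((f v).toNat : K) * F v := by
  unfold posList
  rw [← Finset.sum_map_toList]
  induction f.support.toList with
  | nil => simp
  | cons a l ih => simp [List.flatMap_cons, ih, List.map_replicate, List.sum_replicate,
      nsmul_eq_mul]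

theorem length_posList (f : (Fin 5 → ℤ) →₀ ℤ) :
    ((posList f).length : ℤ) = ∑ v ∈ f.support, ((f v).toNat : ℤ) := by
  have h := sum_posList f (fun _ => (1 : ℤ))
  simp only [mul_one, List.map_const', List.sum_replicate, nsmul_eq_mul] at h
  exact h

theorem mem_posList {f : (Fin 5 → ℤ) →₀ ℤ} {v : Fin 5 → ℤ} (h : v ∈ posList f) :
    v ∈ f.support := by
  unfold posList at h
  obtain ⟨w, hw, hv⟩ := List.mem_flatMap.mp h
  rw [List.eq_of_mem_replicate hv]
  exact Finset.mem_toList.mp hw

/-- one-row matrices whose Gram determinants do not determine the number of bases -/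
theorem not_determined {S : Set (Fin 5 → ℤ)} (h : AddMonoidAlgebra ℤ (Fin 5 → ℤ))
    (hs : ((DelK ℤ * h).coeff.support : Set (Fin 5 → ℤ)) ⊆ S)
    (h1 : h.coeff.sum (fun _ a => a) ≠ 0) : ¬ Determined S := by
  classical
  intro hdet
  set f := (DelK ℤ * h).coeff with hf
  have hfs : ∀ v ∈ posList f, v ∈ S := fun v hv => hs (mem_posList hv)
  have hfs' : ∀ v ∈ posList (-f), v ∈ S := fun v hv => hs (by
    have := mem_posList hv
    rwa [Finsupp.support_neg] at this)
  obtain ⟨φ0, -, -⟩ := exists_eval (K := ℂ) (x := 2) (y := 3) (by norm_num) (by norm_num) (by norm_num)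
    (by norm_num) (by norm_num)
  have key := hdet (posList f).length (posList (-f)).length (rowM (posList f))
    (rowM (posList (-f)))
    (hasExps_row fun j => ⟨_, hfs _ (List.get_mem _ _), isMon_monU _⟩)
    (hasExps_row fun j => ⟨_, hfs' _ (List.get_mem _ _), isMon_monU _⟩)
    (fun j => isMon_ne_zero (isMon_monU _) φ0) (fun j => isMon_ne_zero (isMon_monU _) φ0)
    (fun K _ φ ψ => by
      rw [gram_rowM, gram_rowM, sum_posList, sum_posList, Finsupp.support_neg, ← sub_eq_zero,
        ← Finset.sum_sub_distrib]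
      have e1 : pairHom φ ψ (DelK ℤ * h) = 0 := by rw [map_mul, pairHom_Del, zero_mul]
      have e2 : pairHom φ ψ (DelK ℤ * h) =
          ∑ v ∈ f.support, (f v) • (φ (monU v : RU) * ψ (monU v : RU)) := by
        conv_lhs => rw [← AddMonoidAlgebra.sum_coeff_single (DelK ℤ * h)]
        rw [Finsupp.sum, map_sum]
        exact Finset.sum_congr rfl fun v _ => pairHom_single φ ψ v _
      rw [← e1, e2]
      refine Finset.sum_congr rfl fun v _ => ?_
      rw [← sub_mul, zsmul_eq_mul]
      congr 1
      rw [Finsupp.neg_apply]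
      have e3 : f v = ((f v).toNat : ℤ) - ((-f v).toNat : ℤ) := by omega
      conv_rhs => rw [e3]
      push_cast
      rfl)
  have e4 : ((posList f).length : ℤ) - (posList (-f)).length = f.sum (fun _ a => a) := by
    rw [length_posList, length_posList, Finsupp.support_neg, ← Finset.sum_sub_distrib]
    refine Finset.sum_congr rfl fun v _ => ?_
    rw [Finsupp.neg_apply]
    show _ = f v
    omega
  rw [key, sub_self] at e4
  -- augmentation
  let aug : AddMonoidAlgebra ℤ (Fin 5 → ℤ) →ₐ[ℤ] ℤ := AddMonoidAlgebra.lift ℤ ℤ (Fin 5 → ℤ) 1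
  have haug : ∀ g : AddMonoidAlgebra ℤ (Fin 5 → ℤ), aug g = g.coeff.sum (fun _ a => a) := by
    intro g
    show AddMonoidAlgebra.lift ℤ ℤ (Fin 5 → ℤ) 1 g = _
    rw [AddMonoidAlgebra.lift_apply']
    exact Finsupp.sum_congr fun v _ => by simp
  have hD : aug (DelK ℤ) = -2 := by
    have h2 := Del_map aug.toRingHom (xvK ℤ)
    unfold DelK
    refine h2.trans ?_
    have h3 : (fun i => aug.toRingHom (xvK ℤ i)) = fun _ => (1 : ℤ) := by
      funext i
      show aug (xvK ℤ i) = 1
      rw [haug]
      unfold xvK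
      rw [AddMonoidAlgebra.coeff_single, Finsupp.sum_single_index rfl]
    rw [h3]
    unfold Del
    norm_num
  have h5 := haug (DelK ℤ * h)
  rw [map_mul, hD, haug, ← hf, ← e4] at h5
  omega

end Pool.Agent.Helper34.EXR
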