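import Pool.Agent.Helper34.EXR.Eval

set_option autoImplicit false

open Finset Matrix MvPolynomial

namespace Pool.Agent.Helper34.EXR

open Pool.Agent.Helper51.U2

variable {K : Type} [Field K]

theorem gram_eq {r n : ℕ} (A : Matrix (Fin r) (Fin n) RU) (w : Fin n → K) (φ ψ : RU →+* K) :
    gram A w φ ψ = ∑ B : Finset (Fin n), (∏ e ∈ B, w e) * (φ (minor A B) * ψ (minor A B)) := by
  unfold gram
  rw [cauchyBinet]
  refine Finset.sum_congr rfl fun B _ => ?_
  rw [minor_mul_diagonal, minor_map φ, minor_map ψ]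
  ring

open scoped Classical in
/-- a formula for characters gives a formula for determinants -/
theorem formula_of {S : Set (Fin 5 → ℤ)} {N : ℕ} (c : Fin N → K) (φ ψ : Fin N → (RU →+* K))
    (h : ∀ v ∈ S, ∑ i, c i * mo (fun j => φ i (gen j) * ψ i (gen j)) v = 1)
    (r n : ℕ) (A : Matrix (Fin r) (Fin n) RU) (hA : HasExps A S) (w : Fin n → K) :
    ∑ B ∈ (Finset.univ.filter fun B : Finset (Fin n) => minor A B ≠ 0), ∏ e ∈ B, w e =
      ∑ i, c i * gram A w (φ i) (ψ i) := by
  have h1 : ∀ i, c i * gram A w (φ i) (ψ i) = ∑ B : Finset (Fin n), (∏ e ∈ B, w e) *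
      (c i * (φ i (minor A B) * ψ i (minor A B))) := by
    intro i
    rw [gram_eq, Finset.mul_sum]
    exact Finset.sum_congr rfl fun B _ => by ring
  rw [Finset.sum_congr rfl fun i _ => h1 i, Finset.sum_comm, Finset.sum_filter]
  refine Finset.sum_congr rfl fun B _ => ?_
  rw [← Finset.mul_sum]
  split_ifs with hB
  · rcases hA B with h0 | ⟨v, hv, hm⟩
    · exact absurd h0 hB
    · have := h v hv
      rw [Finset.sum_congr rfl fun i _ => by rw [phi_mon hm (φ i) (ψ i)], this, mul_one]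
  · have h0 : minor A B = 0 := by simpa using hB
    simp [h0]

theorem counted_of {S : Set (Fin 5 → ℤ)} {N : ℕ} (c : Fin N → K) (φ ψ : Fin N → (RU →+* K))
    (h : ∀ v ∈ S, ∑ i, c i * mo (fun j => φ i (gen j) * ψ i (gen j)) v = 1) : Counted K S N :=
  ⟨c, φ, ψ, fun r n A hA w => formula_of c φ ψ h r n A hA w⟩

theorem minor_one (p : RU) (B : Finset (Fin 1)) :
    minor (Matrix.of fun (_ _ : Fin 1) => p) B = if B.card = 1 then p else 0 := by
  unfold minor
  split_ifs with h
  · rw [Matrix.det_fin_one]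
    rfl
  · rfl

theorem gram_one (p : RU) (φ ψ : RU →+* K) :
    gram (Matrix.of fun (_ _ : Fin 1) => p) (fun _ => 1) φ ψ = φ p * ψ p := by
  rw [gram_eq]
  rw [Finset.sum_eq_single (Finset.univ : Finset (Fin 1))]
  · rw [minor_one]
    simp
  · intro B _ hB
    have : B.card ≠ 1 := by
      intro h
      apply hB
      apply Finset.eq_univ_of_card
      simp [h]
    rw [minor_one, if_neg this]
    simp
  · intro h
    exact absurd (Finset.mem_univ _) h

theorem countedOne_of_counted {S : Set (Fin 5 → ℤ)} {N : ℕ} (h : Counted ℂ S N) :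
    CountedOne S N := by
  classical
  obtain ⟨c, φ, ψ, h⟩ := h
  refine ⟨c, φ, ψ, fun A hA h0 => ?_⟩
  rw [← h 1 1 A hA (fun _ => 1)]
  have hA' : A = Matrix.of fun (_ _ : Fin 1) => A 0 0 := by
    ext i j
    fin_cases i
    fin_cases j
    rfl
  rw [Finset.sum_eq_single (Finset.univ : Finset (Fin 1))]
  · simp
  · intro B hB hne
    exfalso
    have : B.card ≠ 1 := by
      intro h
      apply hne
      apply Finset.eq_univ_of_card
      simp [h]
    rw [Finset.mem_filter] at hB
    apply hB.2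
    rw [hA', minor_one, if_neg this]
  · intro hn
    exfalso
    apply hn
    rw [Finset.mem_filter]
    refine ⟨Finset.mem_univ _, ?_⟩
    rw [hA', minor_one]
    simpa using h0

theorem char_formula {S : Set (Fin 5 → ℤ)} {N : ℕ} (h : CountedOne S N) :
    ∃ (c : Fin N → ℂ) (t : Fin N → Fin 5 → ℂ), (∀ i, InV (t i)) ∧
      ∀ v ∈ S, ∑ i, c i * mo (t i) v = 1 := by
  obtain ⟨c, φ, ψ, h⟩ := h
  refine ⟨c, fun i j => φ i (gen j) * ψ i (gen j), fun i => inV_of_homs _ _, fun v hv => ?_⟩
  obtain ⟨p, hp⟩ := exists_isMon v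
  obtain ⟨φ0, -, -⟩ := exists_eval (K := ℂ) (x := 2) (y := 3) (by norm_num) (by norm_num) (by norm_num)
    (by norm_num) (by norm_num)
  have h1 := h (Matrix.of fun (_ _ : Fin 1) => p) (fun B => by
    rw [minor_one]
    split_ifs
    · exact Or.inr ⟨v, hv, hp⟩
    · exact Or.inl rfl) (isMon_ne_zero hp φ0)
  rw [h1]
  refine Finset.sum_congr rfl fun i _ => ?_
  rw [gram_one, phi_mon hp]

/-- independence of characters: only the points on which `L` is trivial contribute -/
theorem trivial_part {S : Set (Fin 5 → ℤ)} {N : ℕ} (L : AddSubgroup (Fin 5 → ℤ))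
    (hS : ∀ v ∈ S, ∀ l ∈ L, v + l ∈ S) (c : Fin N → ℂ) (t : Fin N → Fin 5 → ℂ)
    (ht : ∀ i, InV (t i)) (h : ∀ v ∈ S, ∑ i, c i * mo (t i) v = 1) [DecidablePred fun i =>
      ∀ l ∈ L, mo (t i) l = 1] (v : Fin 5 → ℤ) (hv : v ∈ S) :
    ∑ i ∈ Finset.univ.filter (fun i => ∀ l ∈ L, mo (t i) l = 1), c i * mo (t i) v = 1 := by
  classical
  let χ : Fin N → (Multiplicative L →* ℂ) := fun i =>
    { toFun := fun l => mo (t i) (l.toAdd : Fin 5 → ℤ)
      map_one' := mo_zero _
      map_mul' := fun a b => mo_add (ht i).1 _ _ }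
  have hli := linearIndependent_monoidHom (Multiplicative L) ℂ
  let g : (Multiplicative L →* ℂ) →₀ ℂ :=
    (∑ i, Finsupp.single (χ i) (c i * mo (t i) v)) - Finsupp.single 1 1
  have hg : Finsupp.linearCombination ℂ
      (fun f => f : (Multiplicative L →* ℂ) → Multiplicative L → ℂ) g = 0 := by
    funext l
    simp only [g, map_sub, map_sum, Finsupp.linearCombination_single, Pi.sub_apply,
      Finset.sum_apply, Pi.smul_apply, smul_eq_mul, MonoidHom.one_apply, Pi.zero_apply, mul_one]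
    have h1 := h (v + (l.toAdd : Fin 5 → ℤ)) (hS v hv _ l.toAdd.2)
    rw [sub_eq_zero, ← h1]
    refine Finset.sum_congr rfl fun i _ => ?_
    rw [mo_add (ht i).1]
    show c i * mo (t i) v * mo (t i) _ = _
    ring
  have hg0 : g = 0 := (linearIndependent_iff.mp hli) g hg
  have hg1 := DFunLike.congr_fun hg0 (1 : Multiplicative L →* ℂ)
  simp only [g, Finsupp.coe_sub, Pi.sub_apply, Finsupp.coe_finsetSum, Finset.sum_apply,
    Finsupp.single_apply, if_true, Finsupp.coe_zero, Pi.zero_apply] at hg1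
  rw [sub_eq_zero] at hg1
  rw [Finset.sum_filter]
  refine Eq.trans (Finset.sum_congr rfl fun i _ => ?_) hg1
  have hiff : (∀ l ∈ L, mo (t i) l = 1) ↔ χ i = 1 := by
    constructor
    · intro hl
      refine MonoidHom.ext fun l => ?_
      exact hl _ l.toAdd.2
    · intro hl l hlL
      exact DFunLike.congr_fun hl (Multiplicative.ofAdd (⟨l, hlL⟩ : L))
  by_cases hc : χ i = 1
  · rw [if_pos (hiff.mpr hc), if_pos hc]
  · rw [if_neg (fun hh => hc (hiff.mp hh)), if_neg hc]

theorem hat_one (f : (Fin 5 → ℤ) →₀ ℂ) : hat f (fun _ => 1) = f.sum fun _ a => a := by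
  unfold hat
  exact Finsupp.sum_congr fun v _ => by rw [mo_one, mul_one]

theorem crit_of_countedOne {S : Set (Fin 5 → ℤ)} {N : ℕ} (L : AddSubgroup (Fin 5 → ℤ))
    (hS : ∀ v ∈ S, ∀ l ∈ L, v + l ∈ S) (h : CountedOne S N) : Crit L S := by
  classical
  obtain ⟨c, t, ht, h⟩ := char_formula h
  intro f hf hvan
  have h1 := trivial_part L hS c t ht h
  have h2 : hat f (fun _ => 1) = f.sum fun v a =>
      ∑ i ∈ Finset.univ.filter (fun i => ∀ l ∈ L, mo (t i) l = 1), c i * (a * mo (t i) v) := by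
    rw [hat_one]
    refine Finsupp.sum_congr fun v hv => ?_
    have h3 := h1 v (hf hv)
    calc f v = f v * 1 := (mul_one _).symm
      _ = f v * ∑ i ∈ Finset.univ.filter (fun i => ∀ l ∈ L, mo (t i) l = 1),
          c i * mo (t i) v := by rw [h3]
      _ = _ := by
        rw [Finset.mul_sum]
        exact Finset.sum_congr rfl fun i _ => by ring
  rw [h2, Finsupp.sum, Finset.sum_comm]
  refine Finset.sum_eq_zero fun i hi => ?_
  rw [← Finset.mul_sum]
  have h4 := hvan (t i) (ht i) (Finset.mem_filter.mp hi).2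
  unfold hat Finsupp.sum at h4
  rw [h4, mul_zero]

end Pool.Agent.Helper34.EXR
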