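import Pool.Agent.Helper34.EXR.Dir

set_option autoImplicit false

open Finset MvPolynomial

namespace Pool.Agent.Helper34.EXR

/-- a polynomial representing a Laurent polynomial up to a monomial -/
theorem exists_shift (f : LP) : ∃ (M : ℕ) (P : MvPolynomial (Fin 5) ℂ),
    Th P = AddMonoidAlgebra.single (fun _ => (M : ℤ)) 1 * f ∧
    (∀ t : Fin 5 → ℂ, (∀ i, t i ≠ 0) → eval t P = mo t (fun _ => (M : ℤ)) * hat f.coeff t) ∧
    (∀ t : Fin 5 → ℂ, (∃ i, t i = 0) → eval t P = 0) := by
  classical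
  obtain ⟨M, hM⟩ : ∃ M : ℕ, ∀ v ∈ f.coeff.support, ∀ i, 1 ≤ v i + M := by
    refine ⟨f.coeff.support.sup (fun v => Finset.univ.sup fun i => (1 - v i).toNat), ?_⟩
    intro v hv i
    have h1 : (1 - v i).toNat ≤ Finset.univ.sup fun i => (1 - v i).toNat :=
      Finset.le_sup (f := fun i => (1 - v i).toNat) (Finset.mem_univ i)
    have h2 : (Finset.univ.sup fun i => (1 - v i).toNat) ≤
        f.coeff.support.sup (fun v => Finset.univ.sup fun i => (1 - v i).toNat) :=
      Finset.le_sup (f := fun v : Fin 5 → ℤ => Finset.univ.sup fun i => (1 - v i).toNat) hv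
    have h3 := h1.trans h2
    omega
  let sh : (Fin 5 → ℤ) → (Fin 5 →₀ ℕ) := fun v => Finsupp.equivFunOnFinite.symm
    (fun i => (v i + M).toNat)
  let P : MvPolynomial (Fin 5) ℂ := ∑ v ∈ f.coeff.support, monomial (sh v) (f.coeff v)
  have h1 : ∀ t, eval t P = ∑ v ∈ f.coeff.support, f.coeff v * ∏ i, t i ^ (v i + M).toNat := by
    intro t
    simp only [P, map_sum]
    refine Finset.sum_congr rfl fun v _ => ?_
    rw [eval_monomial, Finsupp.prod_fintype _ _ (by simp)]
    rfl
  refine ⟨M, P, ?_, ?_, ?_⟩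
  · simp only [P, map_sum]
    have h2 : f = ∑ v ∈ f.coeff.support, AddMonoidAlgebra.single v (f.coeff v) := by
      conv_lhs => rw [← AddMonoidAlgebra.sum_coeff_single f]
      rfl
    conv_rhs => rw [h2]
    rw [Finset.mul_sum]
    refine Finset.sum_congr rfl fun v hv => ?_
    rw [Th_monomial, AddMonoidAlgebra.single_mul_single, one_mul]
    congr 1
    funext i
    have h5 := hM v hv i
    show (((v i + M).toNat : ℕ) : ℤ) = M + v i
    omega
  · intro t hz
    rw [h1]
    unfold hat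
    rw [Finsupp.sum, Finset.mul_sum]
    refine Finset.sum_congr rfl fun v hv => ?_
    have h4 : ∏ i, t i ^ (v i + M).toNat = mo t v * mo t (fun _ => (M : ℤ)) := by
      rw [← mo_add hz]
      unfold mo
      refine Finset.prod_congr rfl fun i _ => ?_
      have h5 := hM v hv i
      obtain ⟨k, hk⟩ : ∃ k : ℕ, v i + M = k := ⟨(v i + M).toNat, by omega⟩
      rw [Pi.add_apply, hk]
      simp
    rw [h4]
    ring
  · rintro t ⟨j, hj⟩
    rw [h1]
    refine Finset.sum_eq_zero fun v hv => ?_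
    have h5 := hM v hv j
    have h7 : ∏ i, t i ^ (v i + M).toNat = 0 := by
      apply Finset.prod_eq_zero (Finset.mem_univ j)
      rw [hj]
      apply zero_pow
      omega
    rw [h7, mul_zero]

theorem shift_ne_zero {f : LP} (hf : f ≠ 0) {M : ℕ} {P : MvPolynomial (Fin 5) ℂ}
    (h : Th P = AddMonoidAlgebra.single (fun _ => (M : ℤ)) 1 * f) : P ≠ 0 := by
  rintro rfl
  rw [map_zero] at h
  apply hf
  have h2 := congrArg (fun x => AddMonoidAlgebra.single (fun _ => -(M : ℤ)) (1 : ℂ) * x) h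
  simp only [mul_zero, ← mul_assoc, AddMonoidAlgebra.single_mul_single, mul_one] at h2
  have h3 : ((fun _ => -(M : ℤ)) + fun _ => (M : ℤ) : Fin 5 → ℤ) = 0 := by
    funext i; simp
  rw [h3] at h2
  exact (h2.trans (one_mul f)).symm

/-- a common nonzero of three nonzero Laurent polynomials -/
theorem exists_generic {f g h : LP} (hf : f ≠ 0) (hg : g ≠ 0) (hh : h ≠ 0) :
    ∃ t : Fin 5 → ℂ, (∀ i, t i ≠ 0) ∧ hat f.coeff t ≠ 0 ∧ hat g.coeff t ≠ 0 ∧
      hat h.coeff t ≠ 0 := by
  obtain ⟨M1, P1, a1, b1, c1⟩ := exists_shift f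
  obtain ⟨M2, P2, a2, b2, c2⟩ := exists_shift g
  obtain ⟨M3, P3, a3, b3, c3⟩ := exists_shift h
  have hne : P1 * P2 * P3 ≠ 0 :=
    mul_ne_zero (mul_ne_zero (shift_ne_zero hf a1) (shift_ne_zero hg a2)) (shift_ne_zero hh a3)
  obtain ⟨t, ht⟩ : ∃ t : Fin 5 → ℂ, eval t (P1 * P2 * P3) ≠ 0 := by
    by_contra hcon
    push Not at hcon
    exact hne (MvPolynomial.funext fun t => by rw [hcon t, map_zero])
  rw [map_mul, map_mul] at ht
  have e1 := left_ne_zero_of_mul (left_ne_zero_of_mul ht)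
  have e2 := right_ne_zero_of_mul (left_ne_zero_of_mul ht)
  have e3 := right_ne_zero_of_mul ht
  have htor : ∀ i, t i ≠ 0 := fun i hi => e1 (c1 t ⟨i, hi⟩)
  rw [b1 t htor] at e1
  rw [b2 t htor] at e2
  rw [b3 t htor] at e3
  exact ⟨t, htor, right_ne_zero_of_mul e1, right_ne_zero_of_mul e2, right_ne_zero_of_mul e3⟩

/-- restriction to the curve `u ↦ t u^l` -/
noncomputable def gp (f : (Fin 5 → ℤ) →₀ ℂ) (t : Fin 5 → ℂ) (l : Fin 5 → ℤ) (K : ℤ) :
    Polynomial ℂ :=
  ∑ v ∈ f.support, Polynomial.monomial (dot l v + K).toNat (f v * mo t v)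

theorem eval_gp (f : (Fin 5 → ℤ) →₀ ℂ) {t : Fin 5 → ℂ} (l : Fin 5 → ℤ) (K : ℤ)
    (hK : ∀ v ∈ f.support, 0 ≤ dot l v + K) {u : ℂ} (hu : u ≠ 0) :
    (gp f t l K).eval u = u ^ K * hat f (fun i => t i * u ^ l i) := by
  unfold gp hat
  rw [Polynomial.eval_finsetSum, Finsupp.sum, Finset.mul_sum]
  refine Finset.sum_congr rfl fun v hv => ?_
  have h2 : mo (fun i => t i * u ^ l i) v = mo t v * u ^ dot l v := by
    rw [← mo_curve hu]
    unfold mo
    rw [← Finset.prod_mul_distrib]
    exact Finset.prod_congr rfl fun i _ => by rw [mul_zpow]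
  rw [Polynomial.eval_monomial, h2]
  have h1 : u ^ (dot l v + K).toNat = u ^ (dot l v + K) := by
    rw [← zpow_natCast, Int.toNat_of_nonneg (hK v hv)]
  rw [h1, zpow_add₀ hu]
  ring

theorem exists_bound (f : (Fin 5 → ℤ) →₀ ℂ) (l : Fin 5 → ℤ) :
    ∃ K : ℕ, ∀ v ∈ f.support, 0 ≤ dot l v + (K : ℤ) := by
  refine ⟨∑ v ∈ f.support, (dot l v).natAbs, fun v hv => ?_⟩
  have h1 : (dot l v).natAbs ≤ ∑ v ∈ f.support, (dot l v).natAbs :=
    Finset.single_le_sum (f := fun v => (dot l v).natAbs) (fun _ _ => Nat.zero_le _) hv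
  omega

/-- multiples of `Δ` are at least as wide as `Δ` -/
theorem width_le {l : Fin 5 → ℤ} {m : ℤ} {k : ℕ} {μ ν : Fin 5 → ℤ}
    (hμ : μ ∈ DelL.coeff.support) (hν : ν ∈ DelL.coeff.support)
    (hk : (k : ℤ) < dot l μ - dot l ν) (h : LP)
    (hs : ((DelL * h).coeff.support : Set (Fin 5 → ℤ)) ⊆ strip l m k) : h = 0 := by
  classical
  by_contra hh
  -- the parts of Δ at the levels of μ and ν
  have hpart : ∀ κ ∈ DelL.coeff.support,
      (⟨DelL.coeff.filter fun v => dot l v = dot l κ⟩ : LP) ≠ 0 := by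
    intro κ hκ h0
    have h1 : (DelL.coeff.filter fun v => dot l v = dot l κ) = 0 :=
      congrArg AddMonoidAlgebra.coeff h0
    have h2 := DFunLike.congr_fun h1 κ
    rw [Finsupp.filter_apply, if_pos rfl] at h2
    exact (Finsupp.mem_support_iff.mp hκ) h2
  obtain ⟨t, htor, h1, h2, h3⟩ := exists_generic (hpart μ hμ) (hpart ν hν) hh
  obtain ⟨K1, hK1⟩ := exists_bound DelL.coeff l
  obtain ⟨K2, hK2⟩ := exists_bound h.coeff l
  obtain ⟨K3, hK3⟩ := exists_bound (DelL * h).coeff l
  set G1 := gp DelL.coeff t l K1 with hG1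
  set G2 := gp h.coeff t l K2 with hG2
  set G3 := gp (DelL * h).coeff t l K3 with hG3
  -- coefficients of G1
  have hcoef : ∀ κ ∈ DelL.coeff.support, G1.coeff (dot l κ + K1).toNat =
      hat (DelL.coeff.filter fun v => dot l v = dot l κ) t := by
    intro κ hκ
    rw [hG1]
    unfold gp hat
    rw [Polynomial.finsetSum_coeff, Finsupp.sum, Finsupp.support_filter, Finset.sum_filter]
    refine Finset.sum_congr rfl fun v hv => ?_
    rw [Polynomial.coeff_monomial, Finsupp.filter_apply]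
    have e1 := hK1 v hv
    have e2 := hK1 κ hκ
    by_cases hc : dot l v = dot l κ
    · rw [if_pos (by rw [hc]), if_pos hc, if_pos hc]
    · rw [if_neg (by omega), if_neg hc]
  have hG1μ : G1.coeff (dot l μ + K1).toNat ≠ 0 := by rw [hcoef μ hμ]; exact h1
  have hG1ν : G1.coeff (dot l ν + K1).toNat ≠ 0 := by rw [hcoef ν hν]; exact h2
  have hG1ne : G1 ≠ 0 := fun h0 => hG1μ (by rw [h0, Polynomial.coeff_zero])
  have hG2ne : G2 ≠ 0 := by
    intro h0
    have e1 := eval_gp h.coeff (t := t) l K2 hK2 (u := 1) one_ne_zero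
    rw [← hG2, h0, Polynomial.eval_zero, one_zpow, one_mul] at e1
    have e2 : (fun i => t i * (1 : ℂ) ^ l i) = t := by funext i; simp
    rw [e2] at e1
    exact h3 e1.symm
  have hprod : (Polynomial.X ^ (K1 + K2) * G3 : Polynomial ℂ) = Polynomial.X ^ K3 * (G1 * G2) := by
    apply Polynomial.eq_of_infinite_eval_eq
    refine Set.Infinite.mono (s := {u : ℂ | u ≠ 0}) (fun u hu => ?_) ?_
    · have hu' : u ≠ 0 := hu
      have htu : ∀ i, t i * u ^ l i ≠ 0 := fun i => mul_ne_zero (htor i) (zpow_ne_zero _ hu')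
      show Polynomial.eval u _ = Polynomial.eval u _
      rw [Polynomial.eval_mul, Polynomial.eval_mul, Polynomial.eval_mul, Polynomial.eval_pow,
        Polynomial.eval_pow, Polynomial.eval_X, hG1, hG2, hG3, eval_gp _ l K1 hK1 hu',
        eval_gp _ l K2 hK2 hu', eval_gp _ l K3 hK3 hu', ← evL_apply _ htu, ← evL_apply _ htu,
        ← evL_apply _ htu, map_mul]
      simp only [zpow_natCast]
      ring
    · have : {u : ℂ | u ≠ 0} = ({0} : Set ℂ)ᶜ := by ext u; simp
      rw [this]
      exact (Set.finite_singleton (0 : ℂ)).infinite_compl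
  have hRne : (Polynomial.X ^ K3 * (G1 * G2) : Polynomial ℂ) ≠ 0 :=
    mul_ne_zero (pow_ne_zero _ Polynomial.X_ne_zero) (mul_ne_zero hG1ne hG2ne)
  have hG3ne : G3 ≠ 0 := by
    intro h0
    rw [h0, mul_zero] at hprod
    exact hRne hprod.symm
  have hXne : ∀ j : ℕ, (Polynomial.X ^ j : Polynomial ℂ) ≠ 0 := fun j =>
    pow_ne_zero _ Polynomial.X_ne_zero
  have d1 := congrArg Polynomial.natDegree hprod
  rw [Polynomial.natDegree_mul (hXne _) hG3ne, Polynomial.natDegree_mul (hXne _)
    (mul_ne_zero hG1ne hG2ne), Polynomial.natDegree_mul hG1ne hG2ne,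
    Polynomial.natDegree_X_pow, Polynomial.natDegree_X_pow] at d1
  have d2 := congrArg Polynomial.natTrailingDegree hprod
  rw [Polynomial.natTrailingDegree_mul (hXne _) hG3ne, Polynomial.natTrailingDegree_mul (hXne _)
    (mul_ne_zero hG1ne hG2ne), Polynomial.natTrailingDegree_mul hG1ne hG2ne,
    Polynomial.natTrailingDegree_X_pow, Polynomial.natTrailingDegree_X_pow] at d2
  have a1 : (dot l μ + K1).toNat ≤ G1.natDegree := Polynomial.le_natDegree_of_ne_zero hG1μ
  have a2 : G1.natTrailingDegree ≤ (dot l ν + K1).toNat :=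
    Polynomial.natTrailingDegree_le_of_ne_zero hG1ν
  have a3 : G2.natTrailingDegree ≤ G2.natDegree := Polynomial.natTrailingDegree_le_natDegree _
  have b1 : G3.natDegree ≤ (m + k + K3).toNat := by
    rw [hG3]
    unfold gp
    refine Polynomial.natDegree_sum_le_of_forall_le _ _ fun v hv => ?_
    refine (Polynomial.natDegree_monomial_le _).trans ?_
    have := (hs hv).2
    omega
  have b2 : (m + K3).toNat ≤ G3.natTrailingDegree := by
    apply Polynomial.le_natTrailingDegree hG3ne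
    intro j hj
    rw [hG3]
    unfold gp
    rw [Polynomial.finsetSum_coeff]
    refine Finset.sum_eq_zero fun v hv => ?_
    rw [Polynomial.coeff_monomial, if_neg]
    have e1 := (hs hv).1
    omega
  have b3 : 0 ≤ m + k + K3 := by
    obtain ⟨v, hv⟩ : (DelL * h).coeff.support.Nonempty := by
      rw [Finset.nonempty_iff_ne_empty]
      intro hemp
      apply hG3ne
      rw [hG3]
      unfold gp
      rw [hemp, Finset.sum_empty]
    have e1 := hK3 v hv
    have e2 := (hs hv).2
    omega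
  have c1 := hK1 μ hμ
  have c2 := hK1 ν hν
  omega

theorem strip_crit_iff {l w : Fin 5 → ℤ} (hw : dot l w = 1) {m : ℤ} {k : ℕ} :
    Crit ⊥ (strip l m k) ↔ ∃ μ ∈ DelL.coeff.support, ∃ ν ∈ DelL.coeff.support,
      (k : ℤ) < dot l μ - dot l ν := by
  classical
  rw [crit_bot_iff]
  constructor
  · intro hc
    by_contra hcon
    push Not at hcon
    have hne : DelL.coeff.support.Nonempty := by
      rw [Finset.nonempty_iff_ne_empty]
      intro hemp
      have h0 : DelL.coeff = 0 := Finsupp.support_eq_empty.mp hemp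
      have h1 := evL_DelL (fun _ => 1) (fun _ => one_ne_zero)
      rw [evL_apply, h0, Del_one] at h1
      unfold hat at h1
      simp at h1
    obtain ⟨ν, hν, hmin⟩ := Finset.exists_min_image DelL.coeff.support (dot l) hne
    have h1 := hc (AddMonoidAlgebra.single ((m - dot l ν) • w) 1) (by
      intro v hv
      rw [Finset.mem_coe, Finsupp.mem_support_iff] at hv
      have h2 : (DelL * AddMonoidAlgebra.single ((m - dot l ν) • w) 1).coeff v =
          DelL.coeff (v - (m - dot l ν) • w) := by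
        rw [AddMonoidAlgebra.coeff_mul_single_eq_coeff_mul (v - (m - dot l ν) • w)
          (fun x _ => ⟨fun hx => by rw [← hx]; abel, fun hx => by rw [hx]; abel⟩), mul_one]
      rw [h2] at hv
      have hmem : v - (m - dot l ν) • w ∈ DelL.coeff.support := Finsupp.mem_support_iff.mpr hv
      have h4 : dot l (v - (m - dot l ν) • w) = dot l v - (m - dot l ν) := by
        rw [sub_eq_add_neg, dot_add, ← neg_smul, dot_smul, hw]
        ring
      have h5 := hmin _ hmem
      have h6 := hcon _ hmem ν hν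
      rw [h4] at h5 h6
      constructor
      · omega
      · omega)
    rw [AddMonoidAlgebra.coeff_single, Finsupp.sum_single_index rfl] at h1
    exact one_ne_zero h1
  · rintro ⟨μ, hμ, ν, hν, hk⟩ h hs
    rw [width_le hμ hν hk h hs]
    simp

end Pool.Agent.Helper34.EXR
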